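import Pool.Agent.FlipC.Defs

/-!
# Almost one-to-one extensions of odometers
-/

namespace Pool.Agent.FlipD

open MeasureTheory
open Pool.Agent.FlipC (Cantor MinHomeo Conj Factor InvFactor)

/-- The Polish space of continuous maps of Cantor space, with the topology of uniform convergence. -/
abbrev Maps : Type := C(Cantor, Cantor)

/-- The inverse limit of the groups `ℤ/n_i`. -/
def InvLim (n : ℕ → ℕ) : Set (∀ i, ZMod (n i)) :=
  {g | ∀ i, (ZMod.cast (g (i + 1)) : ZMod (n i)) = g i}

/-- `T` is a minimal homeomorphism of Cantor space that is an almost one-to-one extension of the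
odometer `x ↦ x + 1` on the inverse limit of the groups `ℤ/n_i`: there is a factor map with a one-point
fibre. -/
def AlmostExt (n : ℕ → ℕ) (T : Maps) : Prop :=
  MinHomeo T ∧
    ∃ π : C(Cantor, ∀ i, ZMod (n i)), (∀ x, π x ∈ InvLim n) ∧ (∀ x, π (T x) = π x + 1) ∧
      ∃ x, ∀ y, π y = π x → y = x

/-- `T` is a minimal homeomorphism of Cantor space that is a regular almost one-to-one extension of the
odometer on the inverse limit of the groups `ℤ/n_i`: there is a factor map with a one-point fibre such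
that the set of points with at least two preimages is null for all invariant probability measures. -/
def RegExt (n : ℕ → ℕ) (T : Maps) : Prop :=
  MinHomeo T ∧
    ∃ π : C(Cantor, ∀ i, ZMod (n i)), (∀ x, π x ∈ InvLim n) ∧ (∀ x, π (T x) = π x + 1) ∧
      (∃ x, ∀ y, π y = π x → y = x) ∧
      ∀ (_ : MeasurableSpace (∀ i, ZMod (n i))) (_ : BorelSpace (∀ i, ZMod (n i)))
        (ν : Measure (∀ i, ZMod (n i))), IsProbabilityMeasure ν →
        ν.map (fun g => g + 1) = ν → ν {g | ∃ x y, x ≠ y ∧ π x = g ∧ π y = g} = 0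

/-- Flip conjugacy: conjugate to the other system or to its inverse. -/
def FlipConj (T S : Maps) : Prop :=
  Conj T S ∨ ∃ h : Cantor ≃ₜ Cantor, ∀ x, S (h (T x)) = h x

/-- One of the systems is a factor of the other one or of its inverse. -/
def Related (T S : Maps) : Prop :=
  Factor T S ∨ Factor S T ∨ InvFactor T S ∨ InvFactor S T

/-- The Borel sets of pairs of continuous maps of Cantor space, in the topology of uniform
convergence. -/
def BorelPairs (R : Set (Maps × Maps)) : Prop :=
  @MeasurableSet (Maps × Maps)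
    (borel (Maps × Maps)) R

/-- The set of primes that divide some `n_i`. -/
def PrimeDivs (n : ℕ → ℕ) : Set ℕ := {p | p.Prime ∧ ∃ i, p ∣ n i}

/-- The relation `P` is relatively Borel on the almost one-to-one extensions of the odometer. -/
def RelBorel (n : ℕ → ℕ) (P : Maps → Maps → Prop) : Prop :=
  ∃ B, BorelPairs B ∧ ∀ T S, AlmostExt n T → AlmostExt n S → ((T, S) ∈ B ↔ P T S)

/-- The set of pairs of flip conjugate minimal homeomorphisms of Cantor space. -/
def FlipPairs : Set (Maps × Maps) :=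
  {p | ∃ e₁ e₂ : Cantor ≃ₜ Cantor, (⇑e₁ = ⇑p.1) ∧ (⇑e₂ = ⇑p.2) ∧
    (∀ x : Cantor, Dense (Set.range fun n : ℕ => (⇑e₁)^[n] x)) ∧
    (∀ x : Cantor, Dense (Set.range fun n : ℕ => (⇑e₂)^[n] x)) ∧
    ∃ h : Cantor ≃ₜ Cantor, (⇑h ∘ ⇑e₁ = ⇑e₂ ∘ ⇑h ∨ ⇑h ∘ ⇑e₁ = ⇑e₂.symm ∘ ⇑h)}

end Pool.Agent.FlipD
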