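import Pool.Agent.FlipD.Easy

/-!
# The factor relations over odometers divisible by finitely many primes
-/

namespace Pool.Agent.FlipD

open Set Filter Topology MeasureTheory TopologicalSpace
open Pool.Agent.FlipC (Cantor MinHomeo Conj Factor InvFactor)

section

variable {G ι : Type*} [AddCommGroup G] [TopologicalSpace G] (act : G → (ι → Bool) → (ι → Bool))

/-- The second sequence is covered by a translate of the first one. -/
def EqH (x y : ℕ → ι → Bool) : Prop := ∃ θ : G, ∀ j, ∃ i, act θ (x i) = y j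

variable {act} (act0 : ∀ c, act 0 c = c) (actadd : ∀ a b c, act (a + b) c = act a (act b c))
  [CompactSpace G] [IsTopologicalAddGroup G]
  (hact : Continuous (fun p : G × (ι → Bool) => act p.1 p.2))

include act0 actadd hact

/-- The characterisation of the relation. -/
theorem eqh_iff (x y : ℕ → ι → Bool) (chain : ∃ k : ℕ, Good act (fun l : Fin k => y l) y) :
    EqH act x y ↔ ∃ k : ℕ, Good act (fun l : Fin k => y l) y ∧ ∃ s : Fin k → ℕ,
      ∀ N : ℕ, ∃ b : Fin N → ℕ, ∃ θ : G,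
        (∀ l : Fin k, act θ (x (s l)) = y l) ∧ ∀ l : Fin N, act θ (x (b l)) = y l := by
  constructor
  · rintro ⟨θ, h2⟩
    obtain ⟨k, hk⟩ := chain
    choose i hi using h2
    exact ⟨k, hk, fun l => i l, fun N => ⟨fun l => i l, θ, fun l => hi l, fun l => hi l⟩⟩
  · rintro ⟨k, hy, s, hN⟩
    let P : Set G := {θ | ∀ l : Fin k, act θ (x (s l)) = y l}
    have hP : IsClosed P := by
      have : P = ⋂ l : Fin k, {θ | act θ (x (s l)) = y l} := by ext θ; simp [P]
      rw [this]
      exact isClosed_iInter fun l => isClosed_eq (cont_left act0 actadd hact _) continuous_const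
    have hA2 : ∀ l : ℕ, IsClosed {θ ∈ P | ∃ i, act θ (x i) = y l} := by
      intro l
      have hfin := orbit_finite act0 actadd (w := fun l : Fin k => x (s l)) hy l
      have : {θ ∈ P | ∃ i, act θ (x i) = y l} = P ∩ (fun θ => act (-θ) (y l)) ⁻¹'
          ({d | ∃ θ : G, (∀ l : Fin k, act θ (y l) = x (s l)) ∧ act θ (y l) = d} ∩ range x) := by
        ext θ
        constructor
        · rintro ⟨h1, i, hi⟩
          refine ⟨h1, ⟨-θ, fun l' => ?_, rfl⟩, i, ?_⟩
          · rw [← h1 l', act_neg_act act0 actadd]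
          · change x i = act (-θ) (y l)
            rw [← hi, act_neg_act act0 actadd]
        · rintro ⟨h1, _, i, hi⟩
          refine ⟨h1, i, ?_⟩
          rw [hi]
          exact act_act_neg act0 actadd θ (y l)
      rw [this]
      exact hP.inter ((hfin.inter_of_left _).isClosed.preimage
        ((cont_left act0 actadd hact _).comp continuous_neg))
    let A : ℕ → Set G := fun N => P ∩ ⋂ l : Fin N, {θ ∈ P | ∃ i, act θ (x i) = y l}
    have hAc : ∀ N, IsClosed (A N) := fun N => hP.inter (isClosed_iInter fun l => hA2 l)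
    have hAmem : ∀ N θ, θ ∈ A N ↔ θ ∈ P ∧ ∀ l : Fin N, ∃ i, act θ (x i) = y l := by
      intro N θ
      simp only [A, Set.mem_inter_iff, Set.mem_iInter]
      constructor
      · rintro ⟨h1, h2⟩
        exact ⟨h1, fun l => (h2 l).2⟩
      · rintro ⟨h1, h2⟩
        exact ⟨h1, fun l => ⟨h1, h2 l⟩⟩
    have hAne : ∀ N, (A N).Nonempty := by
      intro N
      obtain ⟨b, θ, h1, h3⟩ := hN N
      exact ⟨θ, (hAmem N θ).2 ⟨h1, fun l => ⟨b l, h3 l⟩⟩⟩
    have hmono : ∀ N, A (N + 1) ⊆ A N := by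
      intro N θ hθ
      rw [hAmem] at hθ ⊢
      exact ⟨hθ.1, fun l => hθ.2 ⟨l.1, by omega⟩⟩
    obtain ⟨θ, hθ⟩ := IsCompact.nonempty_iInter_of_sequence_nonempty_isCompact_isClosed A hmono
      hAne (hAc 0).isCompact hAc
    rw [Set.mem_iInter] at hθ
    exact ⟨θ, fun j => ((hAmem (j + 1) θ).1 (hθ (j + 1))).2 ⟨j, Nat.lt_succ_self j⟩⟩

/-- The relation is Borel. -/
theorem eqh_meas [Countable ι] [T2Space G]
    (chain : ∀ x : ℕ → ι → Bool, ∃ k : ℕ, Good act (fun l : Fin k => x l) x) :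
    @MeasurableSet ((ℕ → ι → Bool) × (ℕ → ι → Bool)) (borel _)
      {p | EqH act p.1 p.2} := by
  letI : MeasurableSpace ((ℕ → ι → Bool) × (ℕ → ι → Bool)) := borel _
  haveI : BorelSpace ((ℕ → ι → Bool) × (ℕ → ι → Bool)) := ⟨rfl⟩
  letI : MeasurableSpace (ℕ → ι → Bool) := borel _
  haveI : BorelSpace (ℕ → ι → Bool) := ⟨rfl⟩
  have hm2 : Measurable (fun p : (ℕ → ι → Bool) × (ℕ → ι → Bool) => p.2) :=
    continuous_snd.measurable
  have : {p : (ℕ → ι → Bool) × (ℕ → ι → Bool) | EqH act p.1 p.2} =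
      ⋃ k : ℕ, ((fun p => p.2) ⁻¹' {v | Good act (fun l : Fin k => v l) v} ∩
        ⋃ s : Fin k → ℕ, ⋂ N : ℕ, ⋃ b : Fin N → ℕ, Prod.snd '' {q : G ×
            ((ℕ → ι → Bool) × (ℕ → ι → Bool)) |
            (∀ l : Fin k, act q.1 (q.2.1 (s l)) = q.2.2 l) ∧
            ∀ l : Fin N, act q.1 (q.2.1 (b l)) = q.2.2 l}) := by
    ext p
    have h1 := eqh_iff act0 actadd hact p.1 p.2 (chain p.2)
    constructor
    · intro h
      obtain ⟨k, hk, s, hN⟩ := h1.1 h
      refine Set.mem_iUnion.2 ⟨k, hk, Set.mem_iUnion.2 ⟨s, Set.mem_iInter.2 fun N => ?_⟩⟩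
      obtain ⟨b, θ, h2⟩ := hN N
      exact Set.mem_iUnion.2 ⟨b, ⟨θ, p⟩, h2, rfl⟩
    · intro h
      obtain ⟨k, hk, h⟩ := Set.mem_iUnion.1 h
      obtain ⟨s, h⟩ := Set.mem_iUnion.1 h
      refine h1.2 ⟨k, hk, s, fun N => ?_⟩
      obtain ⟨b, ⟨⟨θ, p'⟩, h2, rfl⟩⟩ := Set.mem_iUnion.1 (Set.mem_iInter.1 h N)
      exact ⟨b, θ, h2⟩
  rw [this]
  refine MeasurableSet.iUnion fun k => MeasurableSet.inter ?_ ?_
  · exact (good_meas act0 actadd hact (fun l : Fin k => (l : ℕ))).preimage hm2
  refine MeasurableSet.iUnion fun s => MeasurableSet.iInter fun N =>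
    MeasurableSet.iUnion fun b => ?_
  refine (isClosedMap_snd_of_compactSpace _ ?_).measurableSet
  have hev : ∀ m : ℕ, Continuous (fun q : G × ((ℕ → ι → Bool) × (ℕ → ι → Bool)) =>
      act q.1 (q.2.1 m)) := fun m =>
    hact.comp (continuous_fst.prodMk ((continuous_apply m).comp
      (continuous_fst.comp continuous_snd)))
  have hev2 : ∀ m : ℕ, Continuous (fun q : G × ((ℕ → ι → Bool) × (ℕ → ι → Bool)) => q.2.2 m) :=
    fun m => (continuous_apply m).comp (continuous_snd.comp continuous_snd)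
  have hfin : ∀ (K : ℕ) (u w : Fin K → ℕ), IsClosed {q : G ×
      ((ℕ → ι → Bool) × (ℕ → ι → Bool)) | ∀ l, act q.1 (q.2.1 (u l)) = q.2.2 (w l)} := by
    intro K u w
    have : {q : G × ((ℕ → ι → Bool) × (ℕ → ι → Bool)) |
        ∀ l, act q.1 (q.2.1 (u l)) = q.2.2 (w l)} =
        ⋂ l, {q | act q.1 (q.2.1 (u l)) = q.2.2 (w l)} := by ext q; simp
    rw [this]
    exact isClosed_iInter fun l => isClosed_eq (hev _) (hev2 _)
  exact (hfin k s (fun l => l)).inter (hfin N b (fun l => l))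

end

section

variable {n : ℕ → ℕ} [Od n] {T T' : C(Cantor, Cantor)} {π : C(Cantor, ∀ i, ZMod (n i))}
  {x0 : Cantor} {S S' : C(Cantor, Cantor)} {ρ : C(Cantor, ∀ i, ZMod (n i))} {y0 : Cantor}

/-- Factors in terms of codes. -/
theorem factor_iff (h : VD n T T' π x0) (h' : VD n S S' ρ y0) :
    Factor T S ↔ EqH (actO n) (cod n π) (cod n ρ) := by
  constructor
  · rintro ⟨e, hsurj, he⟩
    have hinv : ∀ (k : ℕ), ρ (e ((⇑T)^[k] x0)) - π ((⇑T)^[k] x0) = ρ (e x0) - π x0 := by
      intro k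
      induction k with
      | zero => rfl
      | succ k ih =>
        rw [Function.iterate_succ_apply', he, h'.eqv, h.eqv, ← ih]
        ring
    have hconst : ∀ x, ρ (e x) - π x = ρ (e x0) - π x0 := by
      intro x
      have hc : IsClosed {x | ρ (e x) - π x = ρ (e x0) - π x0} :=
        isClosed_eq ((ρ.continuous.comp e.continuous).sub π.continuous) continuous_const
      have hsub : Set.range (fun k : ℕ => (⇑T)^[k] x0) ⊆ {x | ρ (e x) - π x = ρ (e x0) - π x0} := by
        rintro _ ⟨k, rfl⟩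
        exact hinv k
      have hx : x ∈ closure (Set.range fun k : ℕ => (⇑T)^[k] x0) := h.dense x0 x
      exact (hc.closure_subset_iff.2 hsub) hx
    let θ : GG n := ⟨ρ (e x0) - π x0, (GG n).sub_mem (h'.lim _) (h.lim _)⟩
    have hθ : ∀ x, ρ (e x) = π x + θ.1 := by
      intro x
      have := hconst x
      change ρ (e x) = π x + (ρ (e x0) - π x0)
      rw [← this]
      ring
    refine ⟨θ, fun j => ?_⟩
    obtain ⟨i, hi⟩ := UC_surj ⟨e ⁻¹' (UC j : Set Cantor), (UC j).isClopen.preimage e.continuous⟩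
    have hij : ∀ x, x ∈ UC i ↔ e x ∈ UC j := by
      intro x; rw [hi]; exact Iff.rfl
    refine ⟨i, ?_⟩
    funext u
    obtain ⟨l, r⟩ := u
    change cod n π i ⟨l, r - θ.1 l⟩ = cod n ρ j ⟨l, r⟩
    rw [cod_eq_iff]
    constructor
    · rintro ⟨x, hx, hxr⟩
      refine ⟨e x, (hij x).1 hx, ?_⟩
      rw [hθ]
      change π x l + θ.1 l = r
      rw [show π x l = r - θ.1 l from hxr, sub_add_cancel]
    · rintro ⟨y, hy, hyr⟩
      obtain ⟨x, rfl⟩ := hsurj y
      refine ⟨x, (hij x).2 hy, ?_⟩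
      change π x l = r - θ.1 l
      rw [← show ρ (e x) l = r from hyr, hθ x]
      change π x l = π x l + θ.1 l - θ.1 l
      rw [add_sub_cancel_right]
  · rintro ⟨θ, hji⟩
    let R : ℕ → ℕ → Prop := fun i j => actO n θ (cod n π i) = cod n ρ j
    have hcode : ∀ i j, R i j → ∀ l r, cod n ρ j ⟨l, r⟩ = cod n π i ⟨l, r - θ.1 l⟩ :=
      fun i j hR l r => (congrFun hR ⟨l, r⟩).symm
    have hR : ∀ i j, R i j → ∀ g ∈ InvLim n, (∃ x ∈ UC i, π x = g) ↔ ∃ y ∈ UC j, ρ y = g + θ.1 := by
      intro i j hR g hg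
      rw [h.mem_image hg i, h'.mem_image ((GG n).add_mem hg θ.2) j]
      refine forall_congr' fun l => ?_
      rw [hcode i j hR l]
      have : (g + θ.1) l - θ.1 l = g l := by
        rw [Pi.add_apply, add_sub_cancel_right]
      rw [this]
    choose e he using exists_corr h h' θ.2 R hR
    have huniq : ∀ x y y', (∀ i j, R i j → (x ∈ UC i ↔ y ∈ UC j)) →
        (∀ i j, R i j → (x ∈ UC i ↔ y' ∈ UC j)) → y = y' := by
      intro x y y' h1 h2
      by_contra hne
      obtain ⟨j, hj, hj'⟩ := UC_sep hne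
      obtain ⟨i, hi⟩ := hji j
      exact hj' ((h2 i j hi).1 ((h1 i j hi).2 hj))
    have hcont : Continuous e := by
      rw [continuous_def]
      intro V hV
      rw [isOpen_iff_mem_nhds]
      intro x hx
      obtain ⟨j, hj, hjV⟩ := exists_UC_mem hV (show e x ∈ V from hx)
      obtain ⟨i, hi⟩ := hji j
      have hxi : x ∈ UC i := (he x i j hi).2 hj
      filter_upwards [(UC i).isClopen.isOpen.mem_nhds hxi] with x' hx'
      exact hjV ((he x' i j hi).1 hx')
    have heqv : ∀ x, e (T x) = S (e x) := by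
      intro x
      refine huniq (T x) _ _ (he (T x)) (fun i j hR2 => ?_)
      obtain ⟨i', hi'⟩ := UC_surj ⟨T ⁻¹' (UC i : Set Cantor), (UC i).isClopen.preimage T.continuous⟩
      obtain ⟨j', hj'⟩ := UC_surj ⟨S ⁻¹' (UC j : Set Cantor), (UC j).isClopen.preimage S.continuous⟩
      have hi2 : ∀ x, x ∈ UC i' ↔ T x ∈ UC i := by
        intro x; rw [hi']; exact Iff.rfl
      have hj2 : ∀ x, x ∈ UC j' ↔ S x ∈ UC j := by
        intro x; rw [hj']; exact Iff.rfl
      have hR3 : R i' j' := by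
        funext u
        obtain ⟨l, r⟩ := u
        change cod n π i' ⟨l, r - θ.1 l⟩ = cod n ρ j' ⟨l, r⟩
        rw [cod_pre h hi2, cod_pre h' hj2, hcode i j hR2]
        congr 2
        ring
      rw [← hi2, ← hj2]
      exact he x i' j' hR3
    refine ⟨⟨e, hcont⟩, fun y => ?_, heqv⟩
    have hclosed : IsClosed (Set.range e) := (isCompact_range hcont).isClosed
    have hsub : Set.range (fun k : ℕ => (⇑S)^[k] (e x0)) ⊆ Set.range e := by
      rintro _ ⟨k, rfl⟩
      refine ⟨(⇑T)^[k] x0, ?_⟩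
      induction k with
      | zero => rfl
      | succ k ih =>
        rw [Function.iterate_succ_apply', heqv, ih]
        exact (Function.iterate_succ_apply' _ _ _).symm
    have hy : y ∈ closure (Set.range fun k : ℕ => (⇑S)^[k] (e x0)) := h'.dense (e x0) y
    exact (hclosed.closure_subset_iff.2 hsub) hy

end

section

variable (n : ℕ → ℕ) [Od n]

/-- The factor relations are relatively Borel. -/
theorem easy_factor (hfin : (setOf (Qp n)).Finite) :
    ∃ B B' : Set (C(Cantor, Cantor) × C(Cantor, Cantor)),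
      @MeasurableSet (C(Cantor, Cantor) × C(Cantor, Cantor)) (borel _) B ∧
      @MeasurableSet (C(Cantor, Cantor) × C(Cantor, Cantor)) (borel _) B' ∧
      ∀ T S, AlmostExt n T → AlmostExt n S →
        ((T, S) ∈ B ↔ Factor T S) ∧ ((T, S) ∈ B' ↔ InvFactor T S) := by
  have hEq := eqh_meas (actO_zero n) (actO_add n) (actO_cont n) (chain n hfin)
  have hc1 : Continuous (fun q : Dt n × Dt n => (cod n q.1.2.1, cod n q.2.2.1)) :=
    ((cont_cod n).comp (continuous_fst.comp (continuous_snd.comp continuous_fst))).prodMk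
      ((cont_cod n).comp (continuous_fst.comp (continuous_snd.comp continuous_snd)))
  have hc2 : Continuous (fun q : Dt n × Dt n => (cod n q.1.2.1, cod n (-q.2.2.1))) :=
    ((cont_cod n).comp (continuous_fst.comp (continuous_snd.comp continuous_fst))).prodMk
      ((cont_cod n).comp (continuous_neg.comp
        (continuous_fst.comp (continuous_snd.comp continuous_snd))))
  have hE1 := hc1.borel_measurable hEq
  have hE2 := hc2.borel_measurable hEq
  obtain ⟨B, hB, hB2⟩ := rel_borel n _ hE1 Factor (fun d hd d' hd' => (factor_iff hd hd').symm)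
  obtain ⟨B', hB', hB2'⟩ := rel_borel n _ hE2 InvFactor (fun d hd d' hd' => by
      have h2 := factor_iff hd (VD.inv hd')
      have hd'2 : VD n d'.1.1 d'.1.2 d'.2.1 d'.2.2 := hd'
      change (EqH (actO n) (cod n d.2.1) (cod n (-d'.2.1))) ↔ _
      rw [← h2]
      constructor
      · rintro ⟨e, hs, he⟩
        exact ⟨e, hs, fun x => by rw [he, hd'2.right]⟩
      · rintro ⟨e, hs, he⟩
        exact ⟨e, hs, fun x => by rw [← he x, hd'2.left]⟩)
  exact ⟨B, B', hB, hB', fun T S hT hS => ⟨hB2 T S hT hS, hB2' T S hT hS⟩⟩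

end

end Pool.Agent.FlipD
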