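import Pool.Agent.FlipD.Hard
import Pool.Agent.FlipD.Half

/-!
# The dichotomy
-/

namespace Pool.Agent.FlipD

open Set Filter Topology MeasureTheory
open Pool.Agent.FlipC (Cantor MinHomeo Conj Factor InvFactor)

theorem regExt_almostExt {n : ℕ → ℕ} {T : C(Cantor, Cantor)} (h : RegExt n T) : AlmostExt n T := by
  obtain ⟨h1, π, h2, h3, h4, _⟩ := h
  exact ⟨h1, π, h2, h3, h4⟩

/-- Over an odometer divisible by finitely many primes all four relations are relatively Borel. -/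
theorem easy_all (n : ℕ → ℕ) [Od n] (hfin : (setOf (Qp n)).Finite)
    (P : C(Cantor, Cantor) → C(Cantor, Cantor) → Prop)
    (hP : P = Conj ∨ P = FlipConj ∨ P = Factor ∨ P = InvFactor) :
    ∃ B : Set (C(Cantor, Cantor) × C(Cantor, Cantor)),
      @MeasurableSet (C(Cantor, Cantor) × C(Cantor, Cantor))
        (borel (C(Cantor, Cantor) × C(Cantor, Cantor))) B ∧
      ∀ T S, AlmostExt n T → AlmostExt n S → ((T, S) ∈ B ↔ P T S) := by
  obtain ⟨B1, B2, m1, m2, h⟩ := easy n hfin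
  obtain ⟨B3, B4, m3, m4, h'⟩ := easy_factor n hfin
  rcases hP with rfl | rfl | rfl | rfl
  · exact ⟨B1, m1, fun T S hT hS => (h T S hT hS).1⟩
  · exact ⟨B2, m2, fun T S hT hS => (h T S hT hS).2⟩
  · exact ⟨B3, m3, fun T S hT hS => (h' T S hT hS).1⟩
  · exact ⟨B4, m4, fun T S hT hS => (h' T S hT hS).2⟩

/-- The flip conjugacy relation on minimal homeomorphisms is not Borel. -/
theorem flip_not_borel :
    ¬ @MeasurableSet (C(Cantor, Cantor) × C(Cantor, Cantor))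
      (borel (C(Cantor, Cantor) × C(Cantor, Cantor)))
      {p | ∃ e₁ e₂ : Cantor ≃ₜ Cantor, (⇑e₁ = ⇑p.1) ∧ (⇑e₂ = ⇑p.2) ∧
        (∀ x : Cantor, Dense (Set.range fun n : ℕ => (⇑e₁)^[n] x)) ∧
        (∀ x : Cantor, Dense (Set.range fun n : ℕ => (⇑e₂)^[n] x)) ∧
        ∃ h : Cantor ≃ₜ Cantor, (⇑h ∘ ⇑e₁ = ⇑e₂ ∘ ⇑h ∨ ⇑h ∘ ⇑e₁ = ⇑e₂.symm ∘ ⇑h)} := by
  have i1 : Od Nat.factorial := ⟨Nat.factorial_ne_zero, fun i =>
    Nat.factorial_dvd_factorial (Nat.le_succ i)⟩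
  have i2 : Inf Nat.factorial := by
    refine ⟨?_⟩
    refine Nat.infinite_setOfPred_prime.mono ?_
    intro p hp
    exact ⟨hp, p, Nat.dvd_factorial (Nat.Prime.pos hp) le_rfl⟩
  refine not_borel Nat.factorial _ ?_ ?_
  · intro T S hT hS hc
    obtain ⟨⟨⟨e₁, he₁⟩, hd₁⟩, _⟩ := hT
    obtain ⟨⟨⟨e₂, he₂⟩, hd₂⟩, _⟩ := hS
    obtain ⟨h, hh⟩ := hc
    have h1 : ⇑e₁ = ⇑T := funext he₁
    have h2 : ⇑e₂ = ⇑S := funext he₂
    refine ⟨e₁, e₂, h1, h2, ?_, ?_, h, Or.inl ?_⟩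
    · rw [h1]; exact hd₁
    · rw [h2]; exact hd₂
    · rw [h1, h2]
      funext x
      exact hh x
  · rintro T S _ _ ⟨e₁, e₂, h1, h2, _, _, h, hh⟩
    rcases hh with hh | hh
    · refine Or.inl ⟨⟨h, h.continuous⟩, h.surjective, fun x => ?_⟩
      have h3 := congrFun hh x
      rw [h1, h2] at h3
      exact h3
    · refine Or.inr (Or.inr (Or.inl ⟨⟨h, h.continuous⟩, h.surjective, fun x => ?_⟩))
      have h3 := congrFun hh x
      simp only [Function.comp_apply] at h3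
      change S (h (T x)) = h x
      rw [← h1, h3, ← h2, e₂.apply_symm_apply]

end Pool.Agent.FlipD
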