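import Pool.Agent.FlipC.Min
import Pool.Agent.FlipD.Defs

/-!
# General odometers divisible by infinitely many primes
-/

namespace Pool.Agent.FlipD

open Set Filter Topology

/-- The primes dividing the odometer with moduli `n`. -/
def Qp (n : ℕ → ℕ) (p : ℕ) : Prop := p.Prime ∧ ∃ i, p ∣ n i

/-- Moduli of an odometer. -/
class Od (n : ℕ → ℕ) : Prop where
  ne : ∀ i, n i ≠ 0
  dvd : ∀ i, n i ∣ n (i + 1)

/-- Infinitely many primes divide the odometer. -/
class Inf (n : ℕ → ℕ) : Prop where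
  inf : (setOf (Qp n)).Infinite

section

variable (n : ℕ → ℕ) [Od n]

instance neZero_n (i : ℕ) : NeZero (n i) := ⟨Od.ne i⟩

theorem dvd_le {i j : ℕ} (h : i ≤ j) : n i ∣ n j := by
  induction j with
  | zero =>
    have : i = 0 := by omega
    subst this
    exact dvd_rfl
  | succ j ih =>
    rcases Nat.lt_or_ge i (j + 1) with hlt | hge
    · exact (ih (by omega)).trans (Od.dvd j)
    · have : i = j + 1 := by omega
      subst this
      exact dvd_rfl

/-- The ambient ring. -/
abbrev Gam : Type := ∀ i, ZMod (n i)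

theorem mem_invLim {g : Gam n} : g ∈ InvLim n ↔
    ∀ i, ZMod.castHom (Od.dvd i) (ZMod (n i)) (g (i + 1)) = g i := Iff.rfl

theorem invLim_le {g : Gam n} (hg : g ∈ InvLim n) {i j : ℕ} (h : i ≤ j) :
    ZMod.castHom (dvd_le n h) (ZMod (n i)) (g j) = g i := by
  induction j with
  | zero =>
    have : i = 0 := by omega
    subst this
    have h1 : ZMod.castHom (dvd_le n h) (ZMod (n 0)) = RingHom.id _ := Subsingleton.elim _ _
    rw [h1]
    rfl
  | succ j ih =>
    rcases Nat.lt_or_ge i (j + 1) with hlt | hge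
    · have h1 := ih (by omega)
      rw [← h1, ← (mem_invLim n).1 hg j]
      have h2 : ZMod.castHom (dvd_le n h) (ZMod (n i)) =
          (ZMod.castHom (dvd_le n (by omega : i ≤ j)) (ZMod (n i))).comp
            (ZMod.castHom (Od.dvd j) (ZMod (n j))) := Subsingleton.elim _ _
      rw [h2]
      rfl
    · have : i = j + 1 := by omega
      subst this
      have h1 : ZMod.castHom (dvd_le n h) (ZMod (n (j + 1))) = RingHom.id _ := Subsingleton.elim _ _
      rw [h1]
      rfl

/-- The odometer as a subgroup. -/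
def GG : AddSubgroup (Gam n) where
  carrier := InvLim n
  zero_mem' := by
    rw [mem_invLim]
    intro i
    simp
  add_mem' := by
    intro a b ha hb
    rw [mem_invLim] at ha hb ⊢
    intro i
    rw [Pi.add_apply, Pi.add_apply, map_add, ha, hb]
  neg_mem' := by
    intro a ha
    have ha' := (mem_invLim n).1 ha
    rw [mem_invLim]
    intro i
    rw [Pi.neg_apply, Pi.neg_apply, map_neg, ha']

theorem mem_GG {g : Gam n} : g ∈ GG n ↔ g ∈ InvLim n := Iff.rfl

theorem int_mem (k : ℤ) : ((k : ℤ) : Gam n) ∈ GG n := by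
  rw [mem_GG, mem_invLim]
  intro i
  change ZMod.castHom (Od.dvd i) (ZMod (n i)) (((k : ℤ)) : ZMod (n (i + 1))) = ((k : ℤ) : ZMod (n i))
  rw [map_intCast]

theorem nat_mem (k : ℕ) : ((k : ℕ) : Gam n) ∈ GG n := by
  have := int_mem n (k : ℤ)
  rwa [Int.cast_natCast] at this

theorem isClosed_GG : IsClosed ((GG n : AddSubgroup (Gam n)) : Set (Gam n)) := by
  have : ((GG n : AddSubgroup (Gam n)) : Set (Gam n)) =
      ⋂ i, {g : Gam n | ZMod.castHom (Od.dvd i) (ZMod (n i)) (g (i + 1)) = g i} := by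
    ext g
    rw [Set.mem_iInter]
    exact mem_invLim n
  rw [this]
  refine isClosed_iInter fun i => isClosed_eq ?_ (continuous_apply i)
  have h1 : Continuous (fun g : Gam n => g (i + 1)) := continuous_apply (i + 1)
  exact (continuous_of_discreteTopology
    (f := fun a : ZMod (n (i + 1)) => ZMod.castHom (Od.dvd i) (ZMod (n i)) a)).comp h1

variable [Inf n]

instance fact_q (m : ℕ) : Fact (Nat.Prime (Nat.nth (Qp n) m)) :=
  ⟨(Nat.nth_mem_of_infinite Inf.inf m : Qp n (Nat.nth (Qp n) m)).1⟩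

instance neZero_q (m : ℕ) : NeZero (Nat.nth (Qp n) m) := ⟨(fact_q n m).out.ne_zero⟩

theorem le_q (m : ℕ) : m ≤ Nat.nth (Qp n) m :=
  (Nat.nth_strictMono Inf.inf).le_apply

/-- The product over the primes dividing the odometer. -/
abbrev Qo : Type := ∀ m : ℕ, ZMod (Nat.nth (Qp n) m)

theorem int_inj {φ : ℕ → ℕ} (hφ : Function.Injective φ) {c d : ℤ}
    (h : ∀ k, (c : ZMod (Nat.nth (Qp n) (φ k))) = (d : ZMod (Nat.nth (Qp n) (φ k)))) :
    c = d := by
  obtain ⟨m, ⟨k, rfl⟩, hk⟩ := (Set.infinite_range_of_injective hφ).exists_gt (|d - c|).toNat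
  have h1 := h k
  rw [ZMod.intCast_eq_intCast_iff_dvd_sub] at h1
  have h2 : |d - c| < (Nat.nth (Qp n) (φ k) : ℤ) := by
    have h3 := le_q n (φ k)
    have h4 : |d - c| < (φ k : ℤ) := by
      have := Int.toNat_of_nonneg (abs_nonneg (d - c))
      rw [← this]
      exact_mod_cast hk
    have : (φ k : ℤ) ≤ (Nat.nth (Qp n) (φ k) : ℤ) := by exact_mod_cast h3
    omega
  have h3 := Int.eq_zero_of_abs_lt_dvd h1 h2
  omega

/-- A level at which the `m`-th prime divides. -/
noncomputable def ixx (m : ℕ) : ℕ :=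
  (Nat.nth_mem_of_infinite (Inf.inf (n := n)) m : Qp n (Nat.nth (Qp n) m)).2.choose

theorem ixx_dvd (m : ℕ) : Nat.nth (Qp n) m ∣ n (ixx n m) :=
  (Nat.nth_mem_of_infinite (Inf.inf (n := n)) m : Qp n (Nat.nth (Qp n) m)).2.choose_spec

/-- The reduction to the product over the primes. -/
noncomputable def chi : Gam n →+* Qo n :=
  Pi.ringHom fun m => (ZMod.castHom (ixx_dvd n m) (ZMod (Nat.nth (Qp n) m))).comp
    (Pi.evalRingHom (fun i => ZMod (n i)) (ixx n m))

theorem chi_apply (g : Gam n) (m : ℕ) :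
    chi n g m = ZMod.castHom (ixx_dvd n m) (ZMod (Nat.nth (Qp n) m)) (g (ixx n m)) := rfl

theorem continuous_chi : Continuous (chi n) := by
  refine continuous_pi fun m => ?_
  have h1 : Continuous (fun g : Gam n => g (ixx n m)) := continuous_apply (ixx n m)
  exact (continuous_of_discreteTopology
    (f := fun a : ZMod (n (ixx n m)) =>
      ZMod.castHom (ixx_dvd n m) (ZMod (Nat.nth (Qp n) m)) a)).comp h1

theorem chi_of_dvd {g : Gam n} (hg : g ∈ GG n) {m I : ℕ} (h : Nat.nth (Qp n) m ∣ n I) :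
    chi n g m = ZMod.castHom h (ZMod (Nat.nth (Qp n) m)) (g I) := by
  rw [chi_apply]
  rcases le_total (ixx n m) I with hle | hle
  · rw [← invLim_le n hg hle]
    have h2 : ZMod.castHom h (ZMod (Nat.nth (Qp n) m)) =
        (ZMod.castHom (ixx_dvd n m) (ZMod (Nat.nth (Qp n) m))).comp
          (ZMod.castHom (dvd_le n hle) (ZMod (n (ixx n m)))) := Subsingleton.elim _ _
    rw [h2]
    rfl
  · rw [← invLim_le n hg hle]
    have h2 : ZMod.castHom (ixx_dvd n m) (ZMod (Nat.nth (Qp n) m)) =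
        (ZMod.castHom h (ZMod (Nat.nth (Qp n) m))).comp
          (ZMod.castHom (dvd_le n hle) (ZMod (n I))) := Subsingleton.elim _ _
    rw [h2]
    rfl

omit [Od n] in
theorem crt' (W : ℕ) (r : ℕ) (a : Qo n) (M : ℕ) :
    ∃ k : ℕ, k ≡ r [MOD W] ∧
      ∀ m < M, ¬ Nat.nth (Qp n) m ∣ W → (k : ZMod (Nat.nth (Qp n) m)) = a m := by
  classical
  induction M with
  | zero => exact ⟨r, rfl, fun m hm => absurd hm (Nat.not_lt_zero m)⟩
  | succ M ih =>
    obtain ⟨k, hk0, hk⟩ := ih
    by_cases hM : Nat.nth (Qp n) M ∣ W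
    · refine ⟨k, hk0, fun m hm hmW => ?_⟩
      rcases Nat.lt_succ_iff_lt_or_eq.1 hm with h | h
      · exact hk m h hmW
      · subst h
        exact absurd hM hmW
    · have hco : Nat.Coprime (W * ∏ i ∈ Finset.range M, Nat.nth (Qp n) i) (Nat.nth (Qp n) M) := by
        refine Nat.Coprime.mul_left ?_ (Nat.Coprime.prod_left fun i hi => ?_)
        · exact (((fact_q n M).out.coprime_iff_not_dvd).2 hM).symm
        · rw [Nat.coprime_primes (fact_q n i).out (fact_q n M).out]
          intro h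
          have := Nat.nth_injective Inf.inf h
          have := Finset.mem_range.1 hi
          omega
      obtain ⟨x, hx1, hx2⟩ := Nat.chineseRemainder hco k (a M).val
      refine ⟨x, (hx1.of_dvd (Dvd.intro _ rfl)).trans hk0, fun m hm hmW => ?_⟩
      rcases Nat.lt_succ_iff_lt_or_eq.1 hm with h | h
      · rw [← hk m h hmW]
        rw [ZMod.natCast_eq_natCast_iff]
        exact hx1.of_dvd ((Finset.dvd_prod_of_mem _ (Finset.mem_range.2 h)).trans (Dvd.intro_left _ rfl))
      · subst h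
        have h3 : ((x : ℕ) : ZMod (Nat.nth (Qp n) m)) = ((a m).val : ZMod (Nat.nth (Qp n) m)) := by
          rw [ZMod.natCast_eq_natCast_iff]; exact hx2
        rw [h3, ZMod.natCast_zmod_val]

/-- Density of the orbits, with prescribed perturbations at late primes. -/
theorem dens {g g' : Gam n} (hg : g ∈ GG n) (hg' : g' ∈ GG n) (I : ℕ) :
    ∃ N0, ∀ (M : ℕ) (S : Set ℕ) (_ : ∀ m ∈ S, N0 ≤ m), ∃ k : ℕ,
      (∀ i ≤ I, (g + (k : Gam n)) i = g' i) ∧
      (∀ m < M, m ∉ S → chi n (g + (k : Gam n)) m = chi n g' m) ∧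
      ∀ m < M, m ∈ S → chi n (g + (k : Gam n)) m = chi n g' m + 1 := by
  classical
  refine ⟨n I + 1, fun M S hS => ?_⟩
  obtain ⟨k, hk0, hk⟩ := crt' n (n I) (g' I - g I).val
    (fun m => chi n g' m - chi n g m + (if m ∈ S then 1 else 0)) M
  have hI : (g + (k : Gam n)) I = g' I := by
    have h1 : ((k : ℕ) : ZMod (n I)) = (((g' I - g I).val : ℕ) : ZMod (n I)) := by
      rw [ZMod.natCast_eq_natCast_iff]; exact hk0
    rw [ZMod.natCast_zmod_val] at h1
    rw [Pi.add_apply]
    change g I + ((k : ℕ) : ZMod (n I)) = g' I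
    rw [h1]
    ring
  have hmem : g + (k : Gam n) ∈ GG n := (GG n).add_mem hg (nat_mem n k)
  have hchi : ∀ m, chi n (g + (k : Gam n)) m = chi n g m + (k : ZMod (Nat.nth (Qp n) m)) := by
    intro m
    rw [map_add, map_natCast]
    rfl
  refine ⟨k, fun i hi => ?_, fun m hm hmS => ?_, fun m hm hmS => ?_⟩
  · rw [← invLim_le n hmem hi, ← invLim_le n hg' hi, hI]
  · by_cases hd : Nat.nth (Qp n) m ∣ n I
    · rw [chi_of_dvd n hmem hd, chi_of_dvd n hg' hd, hI]
    · rw [hchi, hk m hm hd, if_neg hmS]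
      ring
  · have hd : ¬ Nat.nth (Qp n) m ∣ n I := by
      intro h
      have h1 := Nat.le_of_dvd (Nat.pos_of_ne_zero (Od.ne I)) h
      have h2 := le_q n m
      have h3 := hS m hmS
      omega
    rw [hchi, hk m hm hd, if_pos hmS]
    ring

theorem chi_surj (a : Qo n) : ∃ g ∈ GG n, chi n g = a := by
  have hc : IsClosed (chi n '' ((GG n : AddSubgroup (Gam n)) : Set (Gam n))) :=
    ((isClosed_GG n).isCompact.image (continuous_chi n)).isClosed
  choose k _ hk using fun M => crt' n 1 0 a M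
  have ht : Tendsto (fun M => chi n ((k M : ℕ) : Gam n)) atTop (𝓝 a) := by
    rw [tendsto_pi_nhds]
    intro m
    refine tendsto_nhds_of_eventually_eq ?_
    filter_upwards [eventually_gt_atTop m] with M hM
    rw [map_natCast]
    refine hk M m hM ?_
    intro h
    exact (fact_q n m).out.one_lt.ne' (Nat.dvd_one.1 h)
  obtain ⟨g, hg, hga⟩ := hc.mem_of_tendsto ht
    (Eventually.of_forall fun M => ⟨_, nat_mem n (k M), rfl⟩)
  exact ⟨g, hg, hga⟩

end

end Pool.Agent.FlipD
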