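import Mathlib

/-!
# Countable sets up to the action of a compact abelian group

For a compact abelian group acting continuously on a countable power of `Bool`, the relation that two
sequences enumerate translates of one another is Borel, provided that a chain condition holds.
-/

namespace Pool.Agent.FlipD

open Set Filter Topology MeasureTheory

section

variable {G ι : Type*} [AddCommGroup G] [TopologicalSpace G] (act : G → (ι → Bool) → (ι → Bool))

/-- The two sequences enumerate translates of one another. -/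
def Eq' (x y : ℕ → ι → Bool) : Prop :=
  ∃ θ : G, (∀ i, ∃ j, act θ (x i) = y j) ∧ ∀ j, ∃ i, act θ (x i) = y j

/-- All members of `v` have finite orbits under the stabiliser of `u`. -/
def Good {k : ℕ} (u : Fin k → ι → Bool) (v : ℕ → ι → Bool) : Prop :=
  ∀ i, ∃ M : ℕ, ¬ ∃ θ : Fin (M + 1) → G, (∀ a l, act (θ a) (u l) = u l) ∧
    ∀ a b, a ≠ b → act (θ a) (v i) ≠ act (θ b) (v i)

variable {act} (act0 : ∀ c, act 0 c = c) (actadd : ∀ a b c, act (a + b) c = act a (act b c))

include act0 actadd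

theorem act_neg_act (θ : G) (c : ι → Bool) : act (-θ) (act θ c) = c := by
  rw [← actadd, neg_add_cancel, act0]

theorem act_act_neg (θ : G) (c : ι → Bool) : act θ (act (-θ) c) = c := by
  rw [← actadd, add_neg_cancel, act0]

theorem act_inj (θ : G) {c d : ι → Bool} (h : act θ c = act θ d) : c = d := by
  rw [← act_neg_act act0 actadd θ c, h, act_neg_act act0 actadd]

/-- Orbits over a coset of the stabiliser are finite. -/
theorem orbit_finite {k : ℕ} {u w : Fin k → ι → Bool} {v : ℕ → ι → Bool} (hg : Good act u v)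
    (i : ℕ) : {d | ∃ θ : G, (∀ l, act θ (u l) = w l) ∧ act θ (v i) = d}.Finite := by
  by_contra hinf
  obtain ⟨M, hM⟩ := hg i
  have hinf' : {d | ∃ θ : G, (∀ l, act θ (u l) = w l) ∧ act θ (v i) = d}.Infinite := hinf
  obtain ⟨f, hf⟩ := hinf'.exists_subset_card_eq (M + 1)
  let e : Fin (M + 1) ≃ f := (Fin.castOrderIso hf.2.symm).toEquiv.trans f.equivFin.symm
  have hmem : ∀ a, (e a).1 ∈ {d | ∃ θ : G, (∀ l, act θ (u l) = w l) ∧ act θ (v i) = d} :=
    fun a => hf.1 (e a).2
  choose θ hθ1 hθ2 using hmem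
  apply hM
  refine ⟨fun a => θ a - θ 0, fun a l => ?_, fun a b hab h => ?_⟩
  · change act (θ a - θ 0) (u l) = u l
    rw [sub_eq_neg_add, actadd, hθ1, ← hθ1 0 l, act_neg_act act0 actadd]
  · change act (θ a - θ 0) (v i) = act (θ b - θ 0) (v i) at h
    rw [sub_eq_neg_add, sub_eq_neg_add, actadd, actadd] at h
    have h1 := act_inj act0 actadd _ h
    rw [hθ2, hθ2] at h1
    exact hab (e.injective (Subtype.ext h1))

variable [CompactSpace G] [IsTopologicalAddGroup G]
  (hact : Continuous (fun p : G × (ι → Bool) => act p.1 p.2))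

include hact

theorem cont_left (c : ι → Bool) : Continuous (fun θ : G => act θ c) :=
  hact.comp (continuous_id.prodMk continuous_const)

/-- The characterisation of the relation. -/
theorem eq_iff (x y : ℕ → ι → Bool) (chain : ∃ k : ℕ, Good act (fun l : Fin k => x l) x) :
    Eq' act x y ↔ ∃ k : ℕ, Good act (fun l : Fin k => x l) x ∧ ∃ s : Fin k → ℕ,
      Good act (fun l => y (s l)) y ∧ ∀ N : ℕ, ∃ a b : Fin N → ℕ, ∃ θ : G,
        (∀ l : Fin k, act θ (x l) = y (s l)) ∧ (∀ l : Fin N, act θ (x l) = y (a l)) ∧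
        ∀ l : Fin N, act θ (x (b l)) = y l := by
  constructor
  · rintro ⟨θ, h1, h2⟩
    obtain ⟨k, hk⟩ := chain
    choose j hj using h1
    choose i hi using h2
    refine ⟨k, hk, fun l => j l, ?_, fun N => ⟨fun l => j l, fun l => i l, θ, fun l => hj l,
      fun l => hj l, fun l => hi l⟩⟩
    intro m
    obtain ⟨M, hM⟩ := hk (i m)
    refine ⟨M, ?_⟩
    rintro ⟨θ', h3, h4⟩
    apply hM
    have key : ∀ (a : Fin (M + 1)) (c : ι → Bool),
        act (θ' a) c = act (-θ) (act (θ' a) (act θ c)) := by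
      intro a c
      rw [← actadd, ← actadd]
      congr 1
      abel
    refine ⟨θ', fun a l => ?_, fun a b hab h => ?_⟩
    · rw [key, hj, h3 a l]
      change act (-θ) (y (j l)) = x l
      rw [← hj, act_neg_act act0 actadd]
    · apply h4 a b hab
      rw [key, key b, hi] at h
      exact act_inj act0 actadd _ h
  · rintro ⟨k, hx, s, hy, hN⟩
    let P : Set G := {θ | ∀ l : Fin k, act θ (x l) = y (s l)}
    have hP : IsClosed P := by
      have : P = ⋂ l : Fin k, {θ | act θ (x l) = y (s l)} := by ext θ; simp [P]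
      rw [this]
      exact isClosed_iInter fun l => isClosed_eq (cont_left act0 actadd hact _) continuous_const
    have hA1 : ∀ l : ℕ, IsClosed {θ ∈ P | ∃ j, act θ (x l) = y j} := by
      intro l
      have hfin := orbit_finite act0 actadd (w := fun l => y (s l)) hx l
      have : {θ ∈ P | ∃ j, act θ (x l) = y j} = P ∩ (fun θ => act θ (x l)) ⁻¹'
          ({d | ∃ θ : G, (∀ l : Fin k, act θ (x l) = y (s l)) ∧ act θ (x l) = d} ∩ range y) := by
        ext θ
        constructor
        · rintro ⟨h1, j, hj⟩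
          exact ⟨h1, ⟨θ, h1, rfl⟩, j, hj.symm⟩
        · rintro ⟨h1, _, j, hj⟩
          exact ⟨h1, j, hj.symm⟩
      rw [this]
      exact hP.inter ((hfin.inter_of_left _).isClosed.preimage (cont_left act0 actadd hact _))
    have hA2 : ∀ l : ℕ, IsClosed {θ ∈ P | ∃ i, act θ (x i) = y l} := by
      intro l
      have hfin := orbit_finite act0 actadd (w := fun l : Fin k => x l) hy l
      have : {θ ∈ P | ∃ i, act θ (x i) = y l} = P ∩ (fun θ => act (-θ) (y l)) ⁻¹'
          ({d | ∃ θ : G, (∀ l : Fin k, act θ (y (s l)) = x l) ∧ act θ (y l) = d} ∩ range x) := by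
        ext θ
        constructor
        · rintro ⟨h1, i, hi⟩
          refine ⟨h1, ⟨-θ, fun l' => ?_, rfl⟩, i, ?_⟩
          · rw [← h1 l', act_neg_act act0 actadd]
          · change x i = act (-θ) (y l)
            rw [← hi, act_neg_act act0 actadd]
        · rintro ⟨h1, _, i, hi⟩
          refine ⟨h1, i, ?_⟩
          rw [hi]
          exact act_act_neg act0 actadd θ (y l)
      rw [this]
      exact hP.inter ((hfin.inter_of_left _).isClosed.preimage
        ((cont_left act0 actadd hact _).comp continuous_neg))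
    let A : ℕ → Set G := fun N => P ∩ ⋂ l : Fin N,
      ({θ ∈ P | ∃ j, act θ (x l) = y j} ∩ {θ ∈ P | ∃ i, act θ (x i) = y l})
    have hAc : ∀ N, IsClosed (A N) := fun N =>
      hP.inter (isClosed_iInter fun l => (hA1 l).inter (hA2 l))
    have hAmem : ∀ N θ, θ ∈ A N ↔ θ ∈ P ∧ ∀ l : Fin N, (∃ j, act θ (x l) = y j) ∧
        ∃ i, act θ (x i) = y l := by
      intro N θ
      simp only [A, Set.mem_inter_iff, Set.mem_iInter]
      constructor
      · rintro ⟨h1, h2⟩
        exact ⟨h1, fun l => ⟨(h2 l).1.2, (h2 l).2.2⟩⟩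
      · rintro ⟨h1, h2⟩
        exact ⟨h1, fun l => ⟨⟨h1, (h2 l).1⟩, ⟨h1, (h2 l).2⟩⟩⟩
    have hAne : ∀ N, (A N).Nonempty := by
      intro N
      obtain ⟨a, b, θ, h1, h2, h3⟩ := hN N
      exact ⟨θ, (hAmem N θ).2 ⟨h1, fun l => ⟨⟨a l, h2 l⟩, ⟨b l, h3 l⟩⟩⟩⟩
    have hmono : ∀ N, A (N + 1) ⊆ A N := by
      intro N θ hθ
      rw [hAmem] at hθ ⊢
      exact ⟨hθ.1, fun l => hθ.2 ⟨l.1, by omega⟩⟩
    obtain ⟨θ, hθ⟩ := IsCompact.nonempty_iInter_of_sequence_nonempty_isCompact_isClosed A hmono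
      hAne (hAc 0).isCompact hAc
    rw [Set.mem_iInter] at hθ
    refine ⟨θ, fun i => ?_, fun j => ?_⟩
    · exact (((hAmem (i + 1) θ).1 (hθ (i + 1))).2 ⟨i, Nat.lt_succ_self i⟩).1
    · exact (((hAmem (j + 1) θ).1 (hθ (j + 1))).2 ⟨j, Nat.lt_succ_self j⟩).2

theorem good_meas [Countable ι] {k : ℕ} (s : Fin k → ℕ) [MeasurableSpace (ℕ → ι → Bool)]
    [BorelSpace (ℕ → ι → Bool)] :
    MeasurableSet {v : ℕ → ι → Bool | Good act (fun l => v (s l)) v} := by
  classical
  have hB : ∀ (i M : ℕ), MeasurableSet {v : ℕ → ι → Bool | ∃ θ : Fin (M + 1) → G,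
      (∀ a l, act (θ a) (v (s l)) = v (s l)) ∧
        ∀ a b, a ≠ b → act (θ a) (v i) ≠ act (θ b) (v i)} := by
    intro i M
    have : {v : ℕ → ι → Bool | ∃ θ : Fin (M + 1) → G,
        (∀ a l, act (θ a) (v (s l)) = v (s l)) ∧
          ∀ a b, a ≠ b → act (θ a) (v i) ≠ act (θ b) (v i)} =
        ⋃ κ : Fin (M + 1) → Fin (M + 1) → Option ι, Prod.snd '' {p : (Fin (M + 1) → G) ×
          (ℕ → ι → Bool) | (∀ a l, act (p.1 a) (p.2 (s l)) = p.2 (s l)) ∧
            ∀ a b, a ≠ b → ∃ c, κ a b = some c ∧ act (p.1 a) (p.2 i) c ≠ act (p.1 b) (p.2 i) c} := by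
      ext v
      constructor
      · rintro ⟨θ, h1, h2⟩
        have h3 : ∀ a b, ∃ o : Option ι, a ≠ b → ∃ c, o = some c ∧
            act (θ a) (v i) c ≠ act (θ b) (v i) c := by
          intro a b
          by_cases hab : a = b
          · exact ⟨none, fun h => absurd hab h⟩
          · obtain ⟨c, hc⟩ := Function.ne_iff.1 (h2 a b hab)
            exact ⟨some c, fun _ => ⟨c, rfl, hc⟩⟩
        choose κ hκ using h3
        rw [Set.mem_iUnion]
        exact ⟨κ, ⟨θ, v⟩, ⟨h1, hκ⟩, rfl⟩
      · intro hv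
        rw [Set.mem_iUnion] at hv
        obtain ⟨κ, ⟨θ, v'⟩, ⟨h1, h2⟩, rfl⟩ := hv
        refine ⟨θ, h1, fun a b hab h => ?_⟩
        obtain ⟨c, _, hc⟩ := h2 a b hab
        exact hc (congrFun h c)
    rw [this]
    refine MeasurableSet.iUnion fun κ => ?_
    refine (isClosedMap_snd_of_compactSpace _ ?_).measurableSet
    have hev : ∀ (a : Fin (M + 1)) (m : ℕ), Continuous (fun p : (Fin (M + 1) → G) ×
        (ℕ → ι → Bool) => act (p.1 a) (p.2 m)) := by
      intro a m
      have h1 : Continuous (fun p : (Fin (M + 1) → G) × (ℕ → ι → Bool) => p.1 a) :=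
        (continuous_apply a).comp continuous_fst
      have h2 : Continuous (fun p : (Fin (M + 1) → G) × (ℕ → ι → Bool) => p.2 m) :=
        (continuous_apply m).comp continuous_snd
      exact hact.comp (h1.prodMk h2)
    refine IsClosed.inter ?_ ?_
    · have : {p : (Fin (M + 1) → G) × (ℕ → ι → Bool) |
          ∀ a l, act (p.1 a) (p.2 (s l)) = p.2 (s l)} = ⋂ a, ⋂ l,
          {p | act (p.1 a) (p.2 (s l)) = p.2 (s l)} := by ext p; simp
      change IsClosed {p : (Fin (M + 1) → G) × (ℕ → ι → Bool) |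
        ∀ a l, act (p.1 a) (p.2 (s l)) = p.2 (s l)}
      rw [this]
      exact isClosed_iInter fun a => isClosed_iInter fun l =>
        isClosed_eq (hev a _) ((continuous_apply _).comp continuous_snd)
    · have : {p : (Fin (M + 1) → G) × (ℕ → ι → Bool) | ∀ a b, a ≠ b → ∃ c, κ a b = some c ∧
          act (p.1 a) (p.2 i) c ≠ act (p.1 b) (p.2 i) c} = ⋂ a, ⋂ b,
          {p | a ≠ b → ∃ c, κ a b = some c ∧ act (p.1 a) (p.2 i) c ≠ act (p.1 b) (p.2 i) c} := by
        ext p; simp
      change IsClosed {p : (Fin (M + 1) → G) × (ℕ → ι → Bool) | ∀ a b, a ≠ b → ∃ c,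
        κ a b = some c ∧ act (p.1 a) (p.2 i) c ≠ act (p.1 b) (p.2 i) c}
      rw [this]
      refine isClosed_iInter fun a => isClosed_iInter fun b => ?_
      by_cases hab : a = b
      · convert isClosed_univ using 1
        ext p; simp [hab]
      · cases hκ : κ a b with
        | none =>
          convert isClosed_empty using 1
          ext p; simp [hab]
        | some c =>
          have hcc : ∀ a : Fin (M + 1), Continuous (fun p : (Fin (M + 1) → G) ×
              (ℕ → ι → Bool) => act (p.1 a) (p.2 i) c) := fun a =>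
            (continuous_apply c).comp (hev a i)
          have h2 : Continuous (fun p : (Fin (M + 1) → G) × (ℕ → ι → Bool) =>
              (act (p.1 a) (p.2 i) c, act (p.1 b) (p.2 i) c)) := (hcc a).prodMk (hcc b)
          convert (isClosed_discrete {q : Bool × Bool | q.1 ≠ q.2}).preimage h2 using 1
          ext p
          constructor
          · intro h
            obtain ⟨c', hc', h3⟩ := h hab
            have : c = c' := Option.some_injective _ hc'
            subst this
            exact h3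
          · intro h _
            exact ⟨c, rfl, h⟩
  have : {v : ℕ → ι → Bool | Good act (fun l => v (s l)) v} = ⋂ i : ℕ, ⋃ M : ℕ,
      {v : ℕ → ι → Bool | ∃ θ : Fin (M + 1) → G,
      (∀ a l, act (θ a) (v (s l)) = v (s l)) ∧
        ∀ a b, a ≠ b → act (θ a) (v i) ≠ act (θ b) (v i)}ᶜ := by
    ext v
    simp only [Set.mem_iInter, Set.mem_iUnion]
    exact Iff.rfl
  rw [this]
  exact MeasurableSet.iInter fun i => MeasurableSet.iUnion fun M => (hB i M).compl

/-- The relation is Borel. -/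
theorem eq_meas [Countable ι] [T2Space G]
    (chain : ∀ x : ℕ → ι → Bool, ∃ k : ℕ, Good act (fun l : Fin k => x l) x) :
    @MeasurableSet ((ℕ → ι → Bool) × (ℕ → ι → Bool)) (borel _)
      {p | Eq' act p.1 p.2} := by
  letI : MeasurableSpace ((ℕ → ι → Bool) × (ℕ → ι → Bool)) := borel _
  haveI : BorelSpace ((ℕ → ι → Bool) × (ℕ → ι → Bool)) := ⟨rfl⟩
  letI : MeasurableSpace (ℕ → ι → Bool) := borel _
  haveI : BorelSpace (ℕ → ι → Bool) := ⟨rfl⟩
  have hm1 : Measurable (fun p : (ℕ → ι → Bool) × (ℕ → ι → Bool) => p.1) :=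
    continuous_fst.measurable
  have hm2 : Measurable (fun p : (ℕ → ι → Bool) × (ℕ → ι → Bool) => p.2) :=
    continuous_snd.measurable
  have : {p : (ℕ → ι → Bool) × (ℕ → ι → Bool) | Eq' act p.1 p.2} =
      ⋃ k : ℕ, ((fun p => p.1) ⁻¹' {v | Good act (fun l : Fin k => v l) v} ∩
        ⋃ s : Fin k → ℕ, ((fun p => p.2) ⁻¹' {v | Good act (fun l => v (s l)) v} ∩
          ⋂ N : ℕ, ⋃ a : Fin N → ℕ, ⋃ b : Fin N → ℕ, Prod.snd '' {q : G ×
            ((ℕ → ι → Bool) × (ℕ → ι → Bool)) |
            (∀ l : Fin k, act q.1 (q.2.1 l) = q.2.2 (s l)) ∧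
            (∀ l : Fin N, act q.1 (q.2.1 l) = q.2.2 (a l)) ∧
            ∀ l : Fin N, act q.1 (q.2.1 (b l)) = q.2.2 l})) := by
    ext p
    have h1 := eq_iff act0 actadd hact p.1 p.2 (chain p.1)
    constructor
    · intro h
      obtain ⟨k, hk, s, hs, hN⟩ := h1.1 h
      refine Set.mem_iUnion.2 ⟨k, hk, Set.mem_iUnion.2 ⟨s, hs, Set.mem_iInter.2 fun N => ?_⟩⟩
      obtain ⟨a, b, θ, h2⟩ := hN N
      exact Set.mem_iUnion.2 ⟨a, Set.mem_iUnion.2 ⟨b, ⟨θ, p⟩, h2, rfl⟩⟩
    · intro h
      obtain ⟨k, hk, h⟩ := Set.mem_iUnion.1 h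
      obtain ⟨s, hs, h⟩ := Set.mem_iUnion.1 h
      refine h1.2 ⟨k, hk, s, hs, fun N => ?_⟩
      obtain ⟨a, h⟩ := Set.mem_iUnion.1 (Set.mem_iInter.1 h N)
      obtain ⟨b, ⟨⟨θ, p'⟩, h2, rfl⟩⟩ := Set.mem_iUnion.1 h
      exact ⟨a, b, θ, h2⟩
  rw [this]
  refine MeasurableSet.iUnion fun k => MeasurableSet.inter ?_ ?_
  · exact (good_meas act0 actadd hact (fun l : Fin k => (l : ℕ))).preimage hm1
  refine MeasurableSet.iUnion fun s => MeasurableSet.inter ?_ ?_
  · exact (good_meas act0 actadd hact s).preimage hm2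
  refine MeasurableSet.iInter fun N => MeasurableSet.iUnion fun a => MeasurableSet.iUnion fun b => ?_
  refine (isClosedMap_snd_of_compactSpace _ ?_).measurableSet
  have hev : ∀ m : ℕ, Continuous (fun q : G × ((ℕ → ι → Bool) × (ℕ → ι → Bool)) =>
      act q.1 (q.2.1 m)) := fun m =>
    hact.comp (continuous_fst.prodMk ((continuous_apply m).comp
      (continuous_fst.comp continuous_snd)))
  have hev2 : ∀ m : ℕ, Continuous (fun q : G × ((ℕ → ι → Bool) × (ℕ → ι → Bool)) => q.2.2 m) :=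
    fun m => (continuous_apply m).comp (continuous_snd.comp continuous_snd)
  have hfin : ∀ (K : ℕ) (u w : Fin K → ℕ), IsClosed {q : G ×
      ((ℕ → ι → Bool) × (ℕ → ι → Bool)) | ∀ l, act q.1 (q.2.1 (u l)) = q.2.2 (w l)} := by
    intro K u w
    have : {q : G × ((ℕ → ι → Bool) × (ℕ → ι → Bool)) |
        ∀ l, act q.1 (q.2.1 (u l)) = q.2.2 (w l)} =
        ⋂ l, {q | act q.1 (q.2.1 (u l)) = q.2.2 (w l)} := by ext q; simp
    rw [this]
    exact isClosed_iInter fun l => isClosed_eq (hev _) (hev2 _)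
  exact (hfin k (fun l => l) s).inter ((hfin N (fun l => l) a).inter (hfin N b (fun l => l)))

end

end Pool.Agent.FlipD
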