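import Pool.Agent.FlipD.Base
import Pool.Agent.FlipD.Compact

/-!
# The chain condition for odometers divisible by finitely many primes
-/

namespace Pool.Agent.FlipD

open Set Filter Topology

section

variable (n : ℕ → ℕ) [Od n]

/-- The action of the odometer on codes of closed sets. -/
def actO (θ : GG n) (c : (Σ j : ℕ, ZMod (n j)) → Bool) : (Σ j : ℕ, ZMod (n j)) → Bool :=
  fun u => c ⟨u.1, u.2 - θ.1 u.1⟩

theorem actO_zero (c : (Σ j : ℕ, ZMod (n j)) → Bool) : actO n 0 c = c := by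
  funext u
  obtain ⟨j, r⟩ := u
  change c ⟨j, r - 0⟩ = c ⟨j, r⟩
  rw [sub_zero]

theorem actO_add (a b : GG n) (c : (Σ j : ℕ, ZMod (n j)) → Bool) :
    actO n (a + b) c = actO n a (actO n b c) := by
  funext u
  obtain ⟨j, r⟩ := u
  change c ⟨j, r - (a.1 j + b.1 j)⟩ = c ⟨j, r - a.1 j - b.1 j⟩
  rw [sub_add_eq_sub_sub]

theorem actO_cont : Continuous (fun p : GG n × ((Σ j : ℕ, ZMod (n j)) → Bool) => actO n p.1 p.2) := by
  refine continuous_pi fun u => ?_
  obtain ⟨j, r⟩ := u
  have h1 : Continuous (fun q : ZMod (n j) × ((Σ j : ℕ, ZMod (n j)) → Bool) =>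
      q.2 ⟨j, r - q.1⟩) := by
    rw [continuous_prod_of_discrete_left]
    intro a
    exact continuous_apply (⟨j, r - a⟩ : Σ j : ℕ, ZMod (n j))
  have h2 : Continuous (fun p : GG n × ((Σ j : ℕ, ZMod (n j)) → Bool) => p.1.1 j) :=
    (continuous_apply j).comp (continuous_subtype_val.comp continuous_fst)
  exact h1.comp (h2.prodMk continuous_snd)

instance compact_GG : CompactSpace (GG n) := isCompact_iff_compactSpace.1 (isClosed_GG n).isCompact

/-- The integers representing elements of the subgroup at level `j`. -/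
def Lv (H : AddSubgroup (GG n)) (j : ℕ) : AddSubgroup ℤ where
  carrier := {k | ∃ h ∈ H, h.1 j = (k : ZMod (n j))}
  zero_mem' := ⟨0, H.zero_mem, by simp⟩
  add_mem' := by
    rintro a b ⟨h, hh, ha⟩ ⟨h', hh', hb⟩
    refine ⟨h + h', H.add_mem hh hh', ?_⟩
    rw [Int.cast_add, ← ha, ← hb]
    rfl
  neg_mem' := by
    rintro a ⟨h, hh, ha⟩
    refine ⟨-h, H.neg_mem hh, ?_⟩
    rw [Int.cast_neg, ← ha]
    rfl

theorem mem_Lv {H : AddSubgroup (GG n)} {j : ℕ} {k : ℤ} :
    k ∈ Lv n H j ↔ ∃ h ∈ H, h.1 j = (k : ZMod (n j)) := Iff.rfl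

theorem exists_gen (H : AddSubgroup (GG n)) (j : ℕ) : ∃ m : ℕ, ∀ k : ℤ, k ∈ Lv n H j ↔ (m : ℤ) ∣ k := by
  obtain ⟨a, ha⟩ := Int.subgroup_cyclic (Lv n H j)
  refine ⟨a.natAbs, fun k => ?_⟩
  rw [ha, ← AddSubgroup.zmultiples_eq_closure, Int.mem_zmultiples_iff, Int.natAbs_dvd]

/-- The generator at level `j`. -/
noncomputable def gn (H : AddSubgroup (GG n)) (j : ℕ) : ℕ := (exists_gen n H j).choose

theorem gn_spec (H : AddSubgroup (GG n)) (j : ℕ) (k : ℤ) :
    k ∈ Lv n H j ↔ ((gn n H j : ℕ) : ℤ) ∣ k := (exists_gen n H j).choose_spec k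

theorem gn_dvd (H : AddSubgroup (GG n)) (j : ℕ) : gn n H j ∣ n j := by
  have h1 : ((n j : ℕ) : ℤ) ∈ Lv n H j := by
    refine ⟨0, H.zero_mem, ?_⟩
    simp
  rw [gn_spec] at h1
  exact_mod_cast h1

theorem gn_ne (H : AddSubgroup (GG n)) (j : ℕ) : gn n H j ≠ 0 := by
  intro h
  have := gn_dvd n H j
  rw [h, zero_dvd_iff] at this
  exact Od.ne j this

theorem gn_gcd (H : AddSubgroup (GG n)) (j : ℕ) :
    gn n H j = Nat.gcd (gn n H (j + 1)) (n j) := by
  apply Nat.dvd_antisymm
  · refine Nat.dvd_gcd ?_ (gn_dvd n H j)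
    have h1 : ((gn n H (j + 1) : ℕ) : ℤ) ∈ Lv n H (j + 1) := (gn_spec n H (j + 1) _).2 dvd_rfl
    obtain ⟨h, hh, hj⟩ := h1
    have h2 : ((gn n H (j + 1) : ℕ) : ℤ) ∈ Lv n H j := by
      refine ⟨h, hh, ?_⟩
      rw [← (mem_invLim n).1 h.2 j, hj, map_intCast]
    rw [gn_spec] at h2
    exact_mod_cast h2
  · have h1 : ((gn n H j : ℕ) : ℤ) ∈ Lv n H j := (gn_spec n H j _).2 dvd_rfl
    obtain ⟨h, hh, hj⟩ := h1
    -- a representative at level j + 1
    have h2 : (((h.1 (j + 1)).val : ℕ) : ℤ) ∈ Lv n H (j + 1) := by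
      refine ⟨h, hh, ?_⟩
      rw [Int.cast_natCast, ZMod.natCast_zmod_val]
    rw [gn_spec] at h2
    have h2' : gn n H (j + 1) ∣ (h.1 (j + 1)).val := by exact_mod_cast h2
    have h3 : (((h.1 (j + 1)).val : ℕ) : ZMod (n j)) = ((gn n H j : ℕ) : ZMod (n j)) := by
      have h4 := (mem_invLim n).1 h.2 j
      have h5 : h.1 (j + 1) = (((h.1 (j + 1)).val : ℕ) : ZMod (n (j + 1))) := by
        rw [ZMod.natCast_zmod_val]
      rw [h5, map_natCast] at h4
      rw [h4, hj]
      simp
    rw [ZMod.natCast_eq_natCast_iff] at h3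
    have h6 : Nat.gcd (gn n H (j + 1)) (n j) ∣ (h.1 (j + 1)).val :=
      (Nat.gcd_dvd_left _ _).trans h2'
    exact (h3.dvd_iff (Nat.gcd_dvd_right _ _)).1 h6

theorem gn_mono {H H' : AddSubgroup (GG n)} (hle : H' ≤ H) (j : ℕ) : gn n H j ∣ gn n H' j := by
  have h1 : ((gn n H' j : ℕ) : ℤ) ∈ Lv n H' j := (gn_spec n H' j _).2 dvd_rfl
  obtain ⟨h, hh, hj⟩ := h1
  have h2 : ((gn n H' j : ℕ) : ℤ) ∈ Lv n H j := ⟨h, hle hh, hj⟩
  rw [gn_spec] at h2
  exact_mod_cast h2

theorem gn_le {H : AddSubgroup (GG n)} {i j : ℕ} (h : i ≤ j) : gn n H i ∣ gn n H j := by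
  induction j with
  | zero =>
    have : i = 0 := by omega
    subst this
    exact dvd_rfl
  | succ j ih =>
    rcases Nat.lt_or_ge i (j + 1) with hlt | hge
    · refine (ih (by omega)).trans ?_
      rw [gn_gcd n H j]
      exact Nat.gcd_dvd_left _ _
    · have : i = j + 1 := by omega
      subst this
      exact dvd_rfl

/-- The exponent of `p` in the generators is bounded. -/
def Big (H : AddSubgroup (GG n)) (p : ℕ) : Prop := ∃ B, ∀ j, (gn n H j).factorization p ≤ B

theorem fac_le (H : AddSubgroup (GG n)) (p j : ℕ) :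
    (gn n H j).factorization p ≤ (n j).factorization p :=
  (Nat.factorization_le_iff_dvd (gn_ne n H j) (Od.ne j)).2 (gn_dvd n H j) p

theorem not_big {H : AddSubgroup (GG n)} {p : ℕ} (h : ¬ Big n H p) (j : ℕ) :
    (gn n H j).factorization p = (n j).factorization p := by
  by_contra hne
  have hlt : (gn n H j).factorization p < (n j).factorization p :=
    lt_of_le_of_ne (fac_le n H p j) hne
  apply h
  have hconst : ∀ i, (gn n H (j + i)).factorization p = (gn n H j).factorization p := by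
    intro i
    induction i with
    | zero => rfl
    | succ i ih =>
      have h1 := gn_gcd n H (j + i)
      have h2 : (gn n H (j + i)).factorization p =
          min ((gn n H (j + i + 1)).factorization p) ((n (j + i)).factorization p) := by
        conv_lhs => rw [h1]
        rw [Nat.factorization_gcd (gn_ne n H _) (Od.ne _)]
        rfl
      have h3 : (n j).factorization p ≤ (n (j + i)).factorization p :=
        (Nat.factorization_le_iff_dvd (Od.ne _) (Od.ne _)).2 (dvd_le n (by omega)) p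
      rw [ih] at h2
      rcases min_choice ((gn n H (j + i + 1)).factorization p) ((n (j + i)).factorization p) with
        h4 | h4
      · rw [h4] at h2
        exact h2.symm
      · rw [h4] at h2
        omega
  refine ⟨(gn n H j).factorization p, fun i => ?_⟩
  rcases le_total i j with hi | hi
  · exact (Nat.factorization_le_iff_dvd (gn_ne n H _) (gn_ne n H _)).2 (gn_le n hi) p
  · have := hconst (i - j)
    rw [show j + (i - j) = i by omega] at this
    exact this.le

theorem big_mono {H H' : AddSubgroup (GG n)} (hle : H' ≤ H) {p : ℕ} (h : Big n H' p) :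
    Big n H p := by
  obtain ⟨B, hB⟩ := h
  exact ⟨B, fun j => le_trans
    ((Nat.factorization_le_iff_dvd (gn_ne n H _) (gn_ne n H' _)).2 (gn_mono n hle j) p) (hB j)⟩

/-- Bounded index. -/
theorem bounded_index (hfin : (setOf (Qp n)).Finite) {H H' : AddSubgroup (GG n)} (hle : H' ≤ H)
    (hbig : ∀ p, Qp n p → Big n H p → Big n H' p) :
    ∃ M : ℕ, 0 < M ∧ ∀ j, gn n H' j ∣ gn n H j * M := by
  classical
  have h1 : ∀ p, ∃ B, Qp n p → ∀ j,
      (gn n H' j).factorization p ≤ (gn n H j).factorization p + B := by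
    intro p
    by_cases hp : Qp n p
    · by_cases hb : Big n H' p
      · obtain ⟨B, hB⟩ := hb
        exact ⟨B, fun _ j => le_trans (hB j) (Nat.le_add_left _ _)⟩
      · have hb' : ¬ Big n H p := fun h => hb (hbig p hp h)
        refine ⟨0, fun _ j => ?_⟩
        rw [not_big n hb j, not_big n hb' j]
        exact Nat.le_add_right _ _
    · exact ⟨0, fun h => absurd h hp⟩
  choose B hB using h1
  have hMpos : 0 < ∏ p ∈ hfin.toFinset, p ^ B p := by
    refine Finset.prod_pos fun p hp => ?_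
    have : Qp n p := hfin.mem_toFinset.1 hp
    exact Nat.pow_pos this.1.pos
  refine ⟨∏ p ∈ hfin.toFinset, p ^ B p, hMpos, fun j => ?_⟩
  rw [← Nat.factorization_prime_le_iff_dvd (gn_ne n H' j)
    (Nat.mul_ne_zero (gn_ne n H j) hMpos.ne')]
  intro p hp
  rw [Nat.factorization_mul (gn_ne n H j) hMpos.ne', Finsupp.add_apply]
  by_cases hq : Qp n p
  · refine le_trans (hB p hq j) (Nat.add_le_add_left ?_ _)
    have hd : p ^ B p ∣ ∏ p ∈ hfin.toFinset, p ^ B p :=
      Finset.dvd_prod_of_mem (fun p => p ^ B p) (hfin.mem_toFinset.2 hq)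
    exact (hp.pow_dvd_iff_le_factorization hMpos.ne').1 hd
  · have : (gn n H' j).factorization p = 0 := by
      apply Nat.factorization_eq_zero_of_not_dvd
      intro hd
      exact hq ⟨hp, j, hd.trans (gn_dvd n H' j)⟩
    rw [this]
    exact Nat.zero_le _

/-- Closed subgroups are seen at finite levels. -/
theorem level_of_not_mem {H : AddSubgroup (GG n)} (hc : IsClosed (H : Set (GG n))) {θ : GG n}
    (h : θ ∉ H) : ∃ j, ∀ i ≥ j, ∀ h' ∈ H, h'.1 i ≠ θ.1 i := by
  have hex : ∃ j, ∀ h' ∈ H, h'.1 j ≠ θ.1 j := by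
    by_contra hcon
    push Not at hcon
    choose u hu1 hu2 using hcon
    apply h
    have ht : Tendsto u atTop (𝓝 θ) := by
      rw [tendsto_subtype_rng, tendsto_pi_nhds]
      intro i
      refine tendsto_nhds_of_eventually_eq ?_
      filter_upwards [eventually_ge_atTop i] with j hj
      rw [← invLim_le n (u j).2 hj, hu2 j, invLim_le n θ.2 hj]
    exact hc.mem_of_tendsto ht (Eventually.of_forall hu1)
  obtain ⟨j, hj⟩ := hex
  refine ⟨j, fun i hi h' hh' heq => hj h' hh' ?_⟩
  rw [← invLim_le n h'.2 hi, heq, invLim_le n θ.2 hi]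

/-- The pigeonhole argument. -/
theorem pigeon {H H' : AddSubgroup (GG n)} (hc : IsClosed (H' : Set (GG n))) {M : ℕ} (hM : 0 < M)
    (hd : ∀ j, gn n H' j ∣ gn n H j * M) (θ : Fin (M + 1) → GG n) (hθ : ∀ a, θ a ∈ H)
    (hne : ∀ a b, a ≠ b → θ a - θ b ∉ H') : False := by
  classical
  have h1 : ∀ a b, ∃ j, a ≠ b → ∀ i ≥ j, ∀ h' ∈ H', h'.1 i ≠ (θ a - θ b).1 i := by
    intro a b
    by_cases hab : a = b
    · exact ⟨0, fun h => absurd hab h⟩
    · obtain ⟨j, hj⟩ := level_of_not_mem n hc (hne a b hab)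
      exact ⟨j, fun _ => hj⟩
  choose lev hlev using h1
  let J := Finset.univ.sup fun a => Finset.univ.sup fun b => lev a b
  have hJ : ∀ a b, lev a b ≤ J := fun a b =>
    le_trans (Finset.le_sup (f := fun b => lev a b) (Finset.mem_univ b))
      (Finset.le_sup (f := fun a => Finset.univ.sup fun b => lev a b) (Finset.mem_univ a))
  -- representatives
  have hk : ∀ a, ∃ t : ℤ, (θ a).1 J = ((((gn n H J : ℕ) : ℤ) * t : ℤ) : ZMod (n J)) := by
    intro a
    have h2 : ((((θ a).1 J).val : ℕ) : ℤ) ∈ Lv n H J := by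
      refine ⟨θ a, hθ a, ?_⟩
      rw [Int.cast_natCast, ZMod.natCast_zmod_val]
    rw [gn_spec] at h2
    obtain ⟨t, ht⟩ := h2
    refine ⟨t, ?_⟩
    rw [← ht, Int.cast_natCast, ZMod.natCast_zmod_val]
  choose t ht using hk
  have hinj : Function.Injective (fun a => ((t a : ℤ) : ZMod M)) := by
    intro a b hab
    by_contra hne'
    have h3 : (M : ℤ) ∣ t a - t b := by
      have := (ZMod.intCast_eq_intCast_iff_dvd_sub (t b) (t a) M).1 hab.symm
      exact this
    have h4 : ((gn n H' J : ℕ) : ℤ) ∣ ((gn n H J : ℕ) : ℤ) * (t a - t b) := by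
      have h5 : ((gn n H' J : ℕ) : ℤ) ∣ ((gn n H J : ℕ) : ℤ) * (M : ℤ) := by
        exact_mod_cast hd J
      exact h5.trans (mul_dvd_mul_left _ h3)
    rw [← gn_spec] at h4
    obtain ⟨h', hh', hj'⟩ := h4
    refine hlev a b hne' J (hJ a b) h' hh' ?_
    rw [hj']
    have h6 : (θ a - θ b).1 J = (θ a).1 J - (θ b).1 J := rfl
    rw [h6, ht a, ht b]
    push_cast
    ring
  haveI : NeZero M := ⟨hM.ne'⟩
  have := Fintype.card_le_of_injective _ hinj
  rw [Fintype.card_fin, ZMod.card] at this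
  omega

/-- The chain condition. -/
theorem chain (hfin : (setOf (Qp n)).Finite) (x : ℕ → (Σ j : ℕ, ZMod (n j)) → Bool) :
    ∃ k : ℕ, Good (actO n) (fun l : Fin k => x l) x := by
  classical
  let H : ℕ → AddSubgroup (GG n) := fun k =>
    { carrier := {θ | ∀ l < k, actO n θ (x l) = x l}
      zero_mem' := fun l _ => actO_zero n (x l)
      add_mem' := by
        intro a b ha hb l hl
        rw [actO_add, hb l hl, ha l hl]
      neg_mem' := by
        intro a ha l hl
        have h1 := ha l hl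
        have h2 : actO n (-a) (actO n a (x l)) = x l := by
          rw [← actO_add, neg_add_cancel, actO_zero]
        rw [h1] at h2
        exact h2 }
  have hH : ∀ k θ, θ ∈ H k ↔ ∀ l < k, actO n θ (x l) = x l := fun k θ => Iff.rfl
  have hmono : ∀ {k k'}, k ≤ k' → H k' ≤ H k := fun {k k'} h θ hθ l hl => hθ l (by omega)
  have hclosed : ∀ k, IsClosed (H k : Set (GG n)) := by
    intro k
    have : (H k : Set (GG n)) = ⋂ l, ⋂ (_ : l < k), {θ | actO n θ (x l) = x l} := by
      ext θ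
      simp only [Set.mem_iInter]
      exact Iff.rfl
    rw [this]
    refine isClosed_iInter fun l => isClosed_iInter fun _ => isClosed_eq ?_ continuous_const
    exact (actO_cont n).comp (continuous_id.prodMk continuous_const)
  let P : ℕ → Finset ℕ := fun k => hfin.toFinset.filter fun p => Big n (H k) p
  have hP : ∀ {k k'}, k ≤ k' → P k' ⊆ P k := by
    intro k k' h p hp
    rw [Finset.mem_filter] at hp ⊢
    exact ⟨hp.1, big_mono n (hmono h) hp.2⟩
  obtain ⟨K, hK⟩ : ∃ K, ∀ k, (P K).card ≤ (P k).card := by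
    have hne : (Set.range fun k => (P k).card).Nonempty := ⟨_, 0, rfl⟩
    obtain ⟨K, hK⟩ := Nat.sInf_mem hne
    exact ⟨K, fun k => by rw [show (P K).card = _ from hK]; exact Nat.sInf_le ⟨k, rfl⟩⟩
  have hPK : ∀ k, K ≤ k → P k = P K := fun k hk =>
    Finset.eq_of_subset_of_card_le (hP hk) (hK k)
  refine ⟨K, fun i => ?_⟩
  let k := max K (i + 1)
  have hKk : K ≤ k := le_max_left _ _
  have hik : i < k := lt_of_lt_of_le (Nat.lt_succ_self i) (le_max_right _ _)
  obtain ⟨M, hM, hd⟩ := bounded_index n hfin (hmono hKk) (fun p hp hb => by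
    have : p ∈ P K := by
      rw [Finset.mem_filter]
      exact ⟨hfin.mem_toFinset.2 hp, hb⟩
    rw [← hPK k hKk, Finset.mem_filter] at this
    exact this.2)
  refine ⟨M, ?_⟩
  rintro ⟨θ, h1, h2⟩
  refine pigeon n (hclosed k) hM hd θ (fun a l hl => h1 a ⟨l, hl⟩) (fun a b hab hmem => ?_)
  apply h2 a b hab
  have h3 := hmem i hik
  have h4 : θ a = θ b + (θ a - θ b) := by abel
  rw [h4, actO_add, h3]

end

end Pool.Agent.FlipD
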