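import Pool.Agent.FlipD.Base

/-!
# Cut systems over a general odometer
-/

namespace Pool.Agent.FlipD

open Set Filter Topology
open Pool.Agent.FlipC (Ix co co_inj co_inj_par par Pt Fm ev ev_sub ev_smul ev_int Jm E E_sub E_smul
  E_int Par tot tot_sub tot_smul tot_single bv Val bt isClopen_imp isClopen_val Jm_co
  exists_private Val_int tendsto_of_bits recode)

variable (n : ℕ → ℕ) [Od n] [Inf n]

/-- A hit: the odometer point agrees with the cut point on the coordinates of the family. -/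
def Hit (l : ℕ) (p : Pt) (g : Qo n) : Prop :=
  ∀ m, Jm l m → g m = ((E l p m : ℤ) : ZMod (Nat.nth (Qp n) m))

theorem hit_ev {l : ℕ} {p : Pt} {g : Qo n} (h : Hit n l p g) {l' : ℕ} {p' : Pt}
    (h' : Hit n l' p' g) {i : Ix} (hi : Fm l i) (hi' : Fm l' i) : ev l p i = ev l' p' i := by
  refine int_inj n (co_inj i) (fun k => ?_)
  have h1 := h (co (i, k)) (by simpa [Jm] using hi)
  have h2 := h' (co (i, k)) (by simpa [Jm] using hi')
  rw [h1] at h2
  simpa [E] using h2

theorem hit_unique {l : ℕ} {p p' : Pt} {g : Qo n} (h : Hit n l p g) (h' : Hit n l p' g) :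
    p = p' := by
  have h1 : p.1 = p'.1 := hit_ev n h h' (i := none) trivial trivial
  refine Prod.ext h1 ?_
  ext s
  have h2 := hit_ev n h h' (i := some (Sum.inr (l, s))) (Or.inl rfl) (Or.inl rfl)
  simp only [ev, if_true, h1] at h2
  omega

/-- The ambient space. -/
abbrev Om : Type := Gam n × (ℕ → Pt → Bool)

/-- First coordinate where the odometer point differs from the cut point. -/
def Fst (l : ℕ) (p : Pt) (g : Qo n) (m : ℕ) : Prop :=
  (Jm l m ∧ g m ≠ ((E l p m : ℤ) : ZMod (Nat.nth (Qp n) m))) ∧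
    ∀ m' < m, Jm l m' → g m' = ((E l p m' : ℤ) : ZMod (Nat.nth (Qp n) m'))

/-- The cut system with parameter `t`. -/
def KK (t : Par) : Set (Om n) :=
  {z | z.1 ∈ GG n ∧ ∀ l p, (Val t l p → ∀ m, Fst n l p (chi n z.1) m → z.2 l p = bt l m) ∧
    (¬ Val t l p → z.2 l p = false)}

theorem fst_unique {l : ℕ} {p : Pt} {g : Qo n} {m m' : ℕ} (h : Fst n l p g m)
    (h' : Fst n l p g m') : m = m' := by
  rcases lt_trichotomy m m' with hlt | heq | hlt
  · exact absurd (h'.2 m hlt h.1.1) h.1.2
  · exact heq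
  · exact absurd (h.2 m' hlt h'.1.1) h'.1.2

theorem exists_Fst {l : ℕ} {p : Pt} {g : Qo n} (h : ¬ Hit n l p g) : ∃ m, Fst n l p g m := by
  classical
  unfold Hit at h
  push Not at h
  have hex : ∃ m, Jm l m ∧ g m ≠ ((E l p m : ℤ) : ZMod (Nat.nth (Qp n) m)) := h
  refine ⟨Nat.find hex, Nat.find_spec hex, fun m' hm' hJ => ?_⟩
  have := Nat.find_min hex hm'
  by_contra hne
  exact this ⟨hJ, hne⟩

theorem hit_not_Fst {l : ℕ} {p : Pt} {g : Qo n} (h : Hit n l p g) (m : ℕ) : ¬ Fst n l p g m :=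
  fun h' => h'.1.2 (h m h'.1.1)

open Classical in
/-- Default values. -/
noncomputable def dflt (t : Par) (g : Qo n) (l : ℕ) (p : Pt) : Bool :=
  decide (Val t l p ∧ ∃ m, Fst n l p g m ∧ bt l m = true)

theorem dflt_spec (t : Par) (g : Qo n) (l : ℕ) (p : Pt) :
    (Val t l p → ∀ m, Fst n l p g m → dflt n t g l p = bt l m) ∧
      (¬ Val t l p → dflt n t g l p = false) := by
  classical
  constructor
  · intro hv m hm
    unfold dflt
    by_cases hb : bt l m = true
    · rw [hb]
      exact decide_eq_true ⟨hv, m, hm, hb⟩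
    · have hb' : bt l m = false := by simpa using hb
      rw [hb']
      refine decide_eq_false ?_
      rintro ⟨_, m', hm', hb2⟩
      rw [fst_unique n hm' hm] at hb2
      exact hb hb2
  · intro hv
    unfold dflt
    exact decide_eq_false fun h => hv h.1

theorem dflt_mem (t : Par) {g : Gam n} (hg : g ∈ GG n) :
    ((g, dflt n t (chi n g)) : Om n) ∈ KK n t := ⟨hg, fun l p => dflt_spec n t (chi n g) l p⟩

/-- Two points of a cut system over one odometer point differ only at hits. -/
theorem exists_hit {t : Par} {z z' : Om n} (hz : z ∈ KK n t) (hz' : z' ∈ KK n t)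
    (h1 : z.1 = z'.1) (hne : z ≠ z') : ∃ l p, Val t l p ∧ Hit n l p (chi n z.1) := by
  by_contra hcon
  push Not at hcon
  apply hne
  refine Prod.ext h1 ?_
  funext l p
  by_cases hv : Val t l p
  · obtain ⟨m, hm⟩ := exists_Fst n (hcon l p hv)
    rw [(hz.2 l p).1 hv m hm]
    rw [h1] at hm
    rw [(hz'.2 l p).1 hv m hm]
  · rw [(hz.2 l p).2 hv, (hz'.2 l p).2 hv]

/-- Translations of the ambient space. -/
noncomputable def tr (θ : Gam n) (q : ℕ → Pt) (z : Om n) : Om n := (z.1 + θ, fun l p => z.2 l (p - q l))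

theorem tr_tr (θ θ' : Gam n) (q q' : ℕ → Pt) (z : Om n) :
    tr n θ q (tr n θ' q' z) = tr n (θ' + θ) (q + q') z := by
  refine Prod.ext ?_ ?_
  · simp only [tr]; rw [add_assoc]
  · funext l p
    simp only [tr, Pi.add_apply]
    rw [sub_add_eq_sub_sub]

theorem tr_zero (z : Om n) : tr n 0 0 z = z := by
  refine Prod.ext ?_ ?_
  · simp [tr]
  · funext l p
    simp [tr]

theorem continuous_tr (θ : Gam n) (q : ℕ → Pt) : Continuous (tr n θ q) := by
  refine (continuous_fst.add continuous_const).prodMk ?_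
  refine continuous_pi fun l => continuous_pi fun p => ?_
  exact (continuous_apply (p - q l)).comp ((continuous_apply l).comp continuous_snd)

theorem Fst_add {θ : Qo n} {q : Pt} {l : ℕ} (hθ : Hit n l q θ) (p : Pt) (g : Qo n) (m : ℕ) :
    Fst n l p (g + θ) m ↔ Fst n l (p - q) g m := by
  have key : ∀ m, Jm l m → ((g + θ) m = ((E l p m : ℤ) : ZMod (Nat.nth (Qp n) m)) ↔
      g m = ((E l (p - q) m : ℤ) : ZMod (Nat.nth (Qp n) m))) := by
    intro m hm
    rw [Pi.add_apply, hθ m hm, E_sub, Int.cast_sub]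
    exact eq_sub_iff_add_eq.symm
  unfold Fst
  refine and_congr ?_ ?_
  · constructor
    · rintro ⟨h1, h2⟩
      exact ⟨h1, fun h => h2 ((key m h1).2 h)⟩
    · rintro ⟨h1, h2⟩
      exact ⟨h1, fun h => h2 ((key m h1).1 h)⟩
  · refine forall_congr' fun m' => forall_congr' fun hm' => forall_congr' fun hJ => ?_
    exact key m' hJ

/-- A translation maps a cut system to another one. -/
theorem tr_mem {t t' : Par} {θ : Gam n} (hG : θ ∈ GG n) {q : ℕ → Pt}
    (hθ : ∀ l, Hit n l (q l) (chi n θ))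
    (hv : ∀ l p, Val t' l p ↔ Val t l (p - q l)) {z : Om n} (hz : z ∈ KK n t) :
    tr n θ q z ∈ KK n t' := by
  refine ⟨(GG n).add_mem hz.1 hG, fun l p => ?_⟩
  constructor
  · intro h m hm
    have hm' : Fst n l p (chi n z.1 + chi n θ) m := by
      have h1 : chi n (z.1 + θ) = chi n z.1 + chi n θ := map_add _ _ _
      rw [← h1]
      exact hm
    exact (hz.2 l (p - q l)).1 ((hv l p).1 h) m ((Fst_add n (hθ l) p _ m).1 hm')
  · intro h
    exact (hz.2 l (p - q l)).2 (fun h' => h ((hv l p).2 h'))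

/-- The integer translation. -/
noncomputable def sg (k : ℤ) : Om n → Om n := tr n ((k : ℤ) : Gam n) (fun _ => (k, 0))

theorem hit_int (k : ℤ) (l : ℕ) : Hit n l (k, 0) (chi n ((k : ℤ) : Gam n)) := by
  intro m _
  rw [E_int, map_intCast]
  rfl

theorem sg_mem {t : Par} (k : ℤ) {z : Om n} (hz : z ∈ KK n t) : sg n k z ∈ KK n t :=
  tr_mem n (int_mem n k) (fun l => hit_int n k l) (fun l p => Val_int t l p k) hz

theorem sg_sg (k l : ℤ) (z : Om n) : sg n k (sg n l z) = sg n (k + l) z := by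
  unfold sg
  rw [tr_tr]
  congr 1
  · push_cast; rw [add_comm]

theorem sg_zero (z : Om n) : sg n 0 z = z := by
  have : sg n 0 = tr n 0 0 := by
    unfold sg
    congr 1
    simp
  rw [this, tr_zero]

theorem continuous_sg (k : ℤ) : Continuous (sg n k) := continuous_tr n _ _

/-! ### Topology -/

theorem isClopen_coord (m : ℕ) (a : ZMod (Nat.nth (Qp n) m)) : IsClopen {g : Qo n | g m = a} :=
  (isClopen_discrete {a}).preimage (continuous_apply m)

theorem isClopen_Fst (l : ℕ) (p : Pt) (m : ℕ) : IsClopen {g : Qo n | Fst n l p g m} := by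
  have h1 : IsClopen {g : Qo n | Jm l m ∧ g m ≠ ((E l p m : ℤ) : ZMod (Nat.nth (Qp n) m))} := by
    by_cases hJ : Jm l m
    · have := (isClopen_coord n m ((E l p m : ℤ) : ZMod (Nat.nth (Qp n) m))).compl
      convert this using 1
      ext g; simp [hJ]
    · have : {g : Qo n | Jm l m ∧ g m ≠ ((E l p m : ℤ) : ZMod (Nat.nth (Qp n) m))} = ∅ := by
        ext g; simp [hJ]
      rw [this]; exact isClopen_empty
  have h2 : IsClopen {g : Qo n | ∀ m' < m, Jm l m' →
      g m' = ((E l p m' : ℤ) : ZMod (Nat.nth (Qp n) m'))} := by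
    have : {g : Qo n | ∀ m' < m, Jm l m' →
        g m' = ((E l p m' : ℤ) : ZMod (Nat.nth (Qp n) m'))} =
        ⋂ m' ∈ Finset.range m, {g : Qo n | Jm l m' →
          g m' = ((E l p m' : ℤ) : ZMod (Nat.nth (Qp n) m'))} := by
      ext g; simp
    rw [this]
    refine isClopen_biInter_finset fun m' _ => ?_
    by_cases hJ : Jm l m'
    · convert isClopen_coord n m' ((E l p m' : ℤ) : ZMod (Nat.nth (Qp n) m')) using 1
      ext g; simp [hJ]
    · convert isClopen_univ using 1
      ext g; simp [hJ]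
  exact h1.inter h2

theorem isClosed_hit (l : ℕ) (p : Pt) : IsClosed {g : Qo n | Hit n l p g} := by
  have : {g : Qo n | Hit n l p g} = ⋂ m, ⋂ (_ : Jm l m), {g : Qo n | g m =
      ((E l p m : ℤ) : ZMod (Nat.nth (Qp n) m))} := by
    ext g; simp [Hit]
  rw [this]
  exact isClosed_iInter fun m => isClosed_iInter fun _ => (isClopen_coord n m _).isClosed

/-- The total space of the family. -/
def KT : Set (Par × Om n) := {x | x.2 ∈ KK n x.1}

theorem isClosed_KT : IsClosed (KT n) := by
  have hval : ∀ l p, IsClopen {x : Par × Om n | Val x.1 l p} := fun l p =>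
    (isClopen_val l p).preimage continuous_fst
  have hfst : ∀ l p m, IsClopen {x : Par × Om n | Fst n l p (chi n x.2.1) m} := fun l p m =>
    (isClopen_Fst n l p m).preimage
      ((continuous_chi n).comp (continuous_fst.comp continuous_snd))
  have hco : ∀ l p (c : Bool), IsClopen {x : Par × Om n | x.2.2 l p = c} := by
    intro l p c
    have hc : Continuous (fun x : Par × Om n => x.2.2 l p) :=
      (continuous_apply p).comp ((continuous_apply l).comp (continuous_snd.comp continuous_snd))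
    exact (isClopen_discrete {c}).preimage hc
  have : KT n = {x : Par × Om n | x.2.1 ∈ GG n} ∩
      ⋂ l, ⋂ p, ({x : Par × Om n | ¬ Val x.1 l p → x.2.2 l p = false} ∩
      ⋂ m, {x : Par × Om n | Val x.1 l p → Fst n l p (chi n x.2.1) m → x.2.2 l p = bt l m}) := by
    ext x
    simp only [KT, KK, Set.mem_iInter, Set.mem_inter_iff]
    constructor
    · rintro ⟨hG, h⟩
      exact ⟨hG, fun l p => ⟨(h l p).2, fun m hv => (h l p).1 hv m⟩⟩
    · rintro ⟨hG, h⟩
      exact ⟨hG, fun l p => ⟨fun hv m => (h l p).2 m hv, (h l p).1⟩⟩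
  rw [this]
  refine IsClosed.inter ?_ ?_
  · exact (isClosed_GG n).preimage (continuous_fst.comp continuous_snd)
  refine isClosed_iInter fun l => isClosed_iInter fun p => IsClosed.inter ?_ ?_
  · exact (isClopen_imp (hval l p).compl (hco l p false)).isClosed
  · refine isClosed_iInter fun m => ?_
    exact (isClopen_imp (hval l p) (isClopen_imp (hfst l p m) (hco l p _))).isClosed

/-! ### Minimality -/

theorem exists_bit (l : ℕ) (g : Qo n) (x : ℕ → Pt → Bool) :
    ∃ c : Bool, ∀ p, Hit n l p g → x l p = c := by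
  by_cases h : ∃ p, Hit n l p g
  · obtain ⟨p, hp⟩ := h
    refine ⟨x l p, fun p' hp' => ?_⟩
    rw [hit_unique n hp hp']
  · push Not at h
    exact ⟨false, fun p hp => absurd hp (h p)⟩

theorem approach {t : Par} {z z' : Om n} (hz : z ∈ KK n t) (hz' : z' ∈ KK n t) (I : ℕ)
    (Q : Finset (ℕ × Pt)) :
    ∃ k : ℕ, (∀ i ≤ I, (sg n k z).1 i = z'.1 i) ∧
      ∀ q ∈ Q, (sg n k z).2 q.1 q.2 = z'.2 q.1 q.2 := by
  classical
  obtain ⟨N0, hN0⟩ := dens n hz.1 hz'.1 I
  let S : ℕ × Pt → ℕ := fun q => if h : ∃ m, Fst n q.1 q.2 (chi n z'.1) m then h.choose + 1 else 0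
  let N' := max N0 (Q.sup S)
  have hN : N0 ≤ N' := le_max_left _ _
  have hS : ∀ q ∈ Q, S q ≤ N' := fun q hq => le_trans (Finset.le_sup hq) (le_max_right _ _)
  choose B hB using fun l => exists_bit n l (chi n z'.1) z'.2
  choose L hL1 hL2 hL3 using fun l => exists_private l (B l) N'
  let N'' := max N' (Q.sup (fun q => L q.1 + 1))
  have hN' : N' ≤ N'' := le_max_left _ _
  have hLQ : ∀ q ∈ Q, L q.1 < N'' := by
    intro q hq
    have h1 : L q.1 + 1 ≤ Q.sup (fun q => L q.1 + 1) := Finset.le_sup (f := fun q => L q.1 + 1) hq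
    have h2 : Q.sup (fun q => L q.1 + 1) ≤ N'' := le_max_right _ _
    omega
  obtain ⟨k, hk1, hk2, hk3⟩ := hN0 N'' (Set.range L) (by
    rintro m ⟨l, rfl⟩
    exact le_trans hN (hL1 l))
  have hsg : (sg n (k : ℤ) z).1 = z.1 + (k : Gam n) := by
    change z.1 + (((k : ℕ) : ℤ) : Gam n) = z.1 + (k : Gam n)
    rw [Int.cast_natCast]
  have hval0 : ∀ m < N'', (∀ l, m ≠ L l) → chi n (sg n k z).1 m = chi n z'.1 m := by
    intro m hm hne
    rw [hsg]
    refine hk2 m hm ?_
    rintro ⟨l, hl⟩
    exact hne l hl.symm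
  have hval2 : ∀ l, L l < N'' → chi n (sg n k z).1 (L l) = chi n z'.1 (L l) + 1 := by
    intro l hl
    rw [hsg]
    exact hk3 _ hl ⟨l, rfl⟩
  have hval1 : ∀ m < N', chi n (sg n k z).1 m = chi n z'.1 m := by
    intro m hm
    refine hval0 m (by omega) (fun l h => ?_)
    have := hL1 l
    omega
  have hmem : sg n k z ∈ KK n t := sg_mem n k hz
  refine ⟨k, fun i hi => by rw [hsg]; exact hk1 i hi, ?_⟩
  rintro ⟨l, p⟩ hq
  change (sg n k z).2 l p = z'.2 l p
  by_cases hv : Val t l p
  · by_cases hh : Hit n l p (chi n z'.1)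
    · have hF : Fst n l p (chi n (sg n k z).1) (L l) := by
        have hJ : Jm l (L l) := by
          unfold Jm
          rw [hL2 l]
          exact rfl
        refine ⟨⟨hJ, ?_⟩, ?_⟩
        · rw [hval2 l (hLQ _ hq), hh (L l) hJ]
          intro h
          have : (1 : ZMod (Nat.nth (Qp n) (L l))) = 0 := by
            have h2 := add_eq_left.1 h
            exact h2
          exact one_ne_zero this
        · intro m' hm' hJ'
          have hlt : m' < N'' := lt_trans hm' (hLQ _ hq)
          rw [hval0 m' hlt ?_]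
          · exact hh m' hJ'
          · intro l' h
            by_cases hn : l' = l
            · subst hn
              omega
            · unfold Jm at hJ'
              rw [h, hL2 l'] at hJ'
              exact hn hJ'
      rw [(hmem.2 l p).1 hv _ hF, hL3 l, hB l p hh]
    · have hex := exists_Fst n hh
      have hSq : S (l, p) = hex.choose + 1 := dif_pos hex
      have hsp : Fst n l p (chi n z'.1) hex.choose := hex.choose_spec
      have hlt : hex.choose < N' := by
        have := hS (l, p) hq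
        omega
      have hF : Fst n l p (chi n (sg n k z).1) hex.choose := by
        refine ⟨⟨hsp.1.1, ?_⟩, ?_⟩
        · rw [hval1 _ hlt]
          exact hsp.1.2
        · intro m' hm' hJ'
          rw [hval1 m' (by omega)]
          exact hsp.2 m' hm' hJ'
      rw [(hmem.2 l p).1 hv _ hF, (hz'.2 l p).1 hv _ hsp]
  · rw [(hmem.2 l p).2 hv, (hz'.2 l p).2 hv]

/-! ### Bits of the ambient space -/

/-- Labels of bits. -/
abbrev La : Type := (Σ i : ℕ, ZMod (n i)) ⊕ (ℕ × Pt)

/-- The bit with a given label. -/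
noncomputable def lb : La n → Om n → Bool
  | Sum.inl x => fun z => decide (z.1 x.1 = x.2)
  | Sum.inr q => fun z => z.2 q.1 q.2

theorem continuous_lb (l : La n) : Continuous (lb n l) := by
  rcases l with x | q
  · have hc : Continuous (fun z : Om n => z.1 x.1) := (continuous_apply x.1).comp continuous_fst
    exact (continuous_of_discreteTopology (f := fun a : ZMod (n x.1) =>
      decide (a = x.2))).comp hc
  · exact (continuous_apply q.2).comp ((continuous_apply q.1).comp continuous_snd)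

theorem exists_enum : ∃ en : ℕ → La n, Function.Surjective en := by
  have : Nonempty (La n) := ⟨Sum.inr (0, 0)⟩
  have : ∀ m : ℕ, Countable (ZMod (n m)) := fun m => inferInstance
  exact exists_surjective_nat (La n)

/-- A fixed enumeration of the labels. -/
noncomputable def en : ℕ → La n := (exists_enum n).choose

theorem en_surj : Function.Surjective (en n) := (exists_enum n).choose_spec

/-- The sequence of bits. -/
noncomputable def bb (i : ℕ) : Om n → Bool := lb n (en n i)

theorem continuous_bb (i : ℕ) : Continuous (bb n i) := continuous_lb n _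

theorem bb_sep (z z' : Om n) (h : ∀ i, bb n i z = bb n i z') : z = z' := by
  have hl : ∀ l, lb n l z = lb n l z' := by
    intro l
    obtain ⟨i, rfl⟩ := en_surj n l
    exact h i
  refine Prod.ext ?_ ?_
  · funext m
    have := hl (Sum.inl ⟨m, z'.1 m⟩)
    simpa [lb] using this
  · funext l p
    exact hl (Sum.inr (l, p))

/-- Bits are determined by finitely many coordinates. -/
theorem bb_fin (N : ℕ) : ∃ (I : ℕ) (Q : Finset (ℕ × Pt)), ∀ z z' : Om n,
    (∀ i ≤ I, z.1 i = z'.1 i) → (∀ q ∈ Q, z.2 q.1 q.2 = z'.2 q.1 q.2) →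
    ∀ i < N, bb n i z = bb n i z' := by
  classical
  induction N with
  | zero => exact ⟨0, ∅, fun _ _ _ _ i hi => absurd hi (Nat.not_lt_zero i)⟩
  | succ N ih =>
    obtain ⟨I, Q, h⟩ := ih
    have hcase : ∀ l : La n, ∃ (I' : ℕ) (Q' : Finset (ℕ × Pt)), ∀ z z' : Om n,
        (∀ i ≤ I', z.1 i = z'.1 i) → (∀ q ∈ Q', z.2 q.1 q.2 = z'.2 q.1 q.2) →
        lb n l z = lb n l z' := by
      intro l
      rcases l with x | q
      · refine ⟨x.1, ∅, fun z z' h1 _ => ?_⟩
        simp only [lb]
        rw [h1 x.1 le_rfl]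
      · exact ⟨0, {q}, fun z z' _ h2 => h2 q (Finset.mem_singleton_self q)⟩
    obtain ⟨I', Q', h'⟩ := hcase (en n N)
    refine ⟨max I I', Q ∪ Q', fun z z' h1 h2 i hi => ?_⟩
    rcases Nat.lt_succ_iff_lt_or_eq.1 hi with hlt | heq
    · exact h z z' (fun m hm => h1 m (le_trans hm (le_max_left _ _)))
        (fun q hq => h2 q (Finset.mem_union_left _ hq)) i hlt
    · subst heq
      exact h' z z' (fun m hm => h1 m (le_trans hm (le_max_right _ _)))
        (fun q hq => h2 q (Finset.mem_union_right _ hq))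

theorem approach_bits {t : Par} {z z' : Om n} (hz : z ∈ KK n t) (hz' : z' ∈ KK n t) (N : ℕ) :
    ∃ k : ℕ, ∀ i < N, bb n i (sg n k z) = bb n i z' := by
  obtain ⟨I, Q, h⟩ := bb_fin n N
  obtain ⟨k, h1, h2⟩ := approach n hz hz' I Q
  exact ⟨k, h _ _ h1 h2⟩

theorem sg_ne {k : ℤ} (hk : k ≠ 0) (z : Om n) : sg n k z ≠ z := by
  intro h
  apply hk
  refine int_inj n Function.injective_id (fun m => ?_)
  have h1 : z.1 + ((k : ℤ) : Gam n) = z.1 := congrArg Prod.fst h
  have h2 : ((k : ℤ) : Gam n) = 0 := add_eq_left.1 h1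
  have h3 : chi n ((k : ℤ) : Gam n) = 0 := by rw [h2, map_zero]
  rw [map_intCast] at h3
  have h4 := congrFun h3 m
  rw [Int.cast_zero]
  exact h4

theorem kk_perf {t : Par} {z : Om n} (hz : z ∈ KK n t) (N : ℕ) :
    ∃ z', z' ≠ z ∧ z' ∈ KK n t ∧ ∀ i < N, bb n i z' = bb n i z := by
  obtain ⟨k, hk⟩ := approach_bits n (sg_mem n 1 hz) hz N
  refine ⟨sg n k (sg n 1 z), ?_, sg_mem n _ (sg_mem n _ hz), hk⟩
  rw [sg_sg]
  exact sg_ne n (by omega) z

theorem kk_dense {t : Par} {z z' : Om n} (hz : z ∈ KK n t) (hz' : z' ∈ KK n t) :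
    ∃ u : ℕ → ℕ, Tendsto (fun i => sg n (u i) z) atTop (𝓝 z') := by
  choose u hu using fun N => approach_bits n hz hz' N
  refine ⟨u, tendsto_of_bits (bb n) (continuous_bb n) (bb_sep n) _ _ (fun i => ?_)⟩
  filter_upwards [eventually_gt_atTop i] with N hN
  exact hu N i hN

theorem kk_open (N : ℕ) (s : ℕ → Bool) (c : Bool) :
    IsOpen {t : Par | ∃ z, (t, z) ∈ KT n ∧ (∀ i < N, bb n i z = s i) ∧ bb n N z = c} := by
  classical
  rw [isOpen_iff_mem_nhds]
  rintro t ⟨z, hz, h1, h2⟩
  obtain ⟨I, Q, hNQ⟩ := bb_fin n (N + 1)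
  have hU : IsOpen (⋂ q ∈ Q, {t' : Par | Val t' q.1 q.2 ↔ Val t q.1 q.2}) := by
    refine isOpen_biInter_finset fun q _ => ?_
    by_cases hv : Val t q.1 q.2
    · convert (isClopen_val q.1 q.2).isOpen using 1
      ext t'; simp [hv]
    · convert (isClopen_val q.1 q.2).compl.isOpen using 1
      ext t'; simp [hv]
  have hmem : t ∈ ⋂ q ∈ Q, {t' : Par | Val t' q.1 q.2 ↔ Val t q.1 q.2} := by simp
  filter_upwards [hU.mem_nhds hmem] with t' ht'
  have ht'' : ∀ q ∈ Q, (Val t' q.1 q.2 ↔ Val t q.1 q.2) := by simpa using ht'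
  have hz0 : z ∈ KK n t := hz
  let z' : Om n :=
    (z.1, fun l p => if (l, p) ∈ Q then z.2 l p else dflt n t' (chi n z.1) l p)
  have hz' : z' ∈ KK n t' := by
    refine ⟨hz0.1, fun l p => ?_⟩
    change (Val t' l p → ∀ m, Fst n l p (chi n z.1) m →
      (if (l, p) ∈ Q then z.2 l p else dflt n t' (chi n z.1) l p) = bt l m) ∧
      (¬ Val t' l p → (if (l, p) ∈ Q then z.2 l p else dflt n t' (chi n z.1) l p) = false)
    by_cases hq : (l, p) ∈ Q
    · rw [if_pos hq]
      have hiff := ht'' _ hq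
      exact ⟨fun hv => (hz0.2 l p).1 (hiff.1 hv),
        fun hv => (hz0.2 l p).2 (fun h => hv (hiff.2 h))⟩
    · rw [if_neg hq]
      exact dflt_spec n t' (chi n z.1) l p
  have hag : ∀ i < N + 1, bb n i z' = bb n i z := by
    refine hNQ z' z (fun m _ => rfl) (fun q hq => ?_)
    change (if (q.1, q.2) ∈ Q then z.2 q.1 q.2 else dflt n t' (chi n z.1) q.1 q.2) = z.2 q.1 q.2
    rw [if_pos (by simpa using hq)]
  refine ⟨z', hz', fun i hi => ?_, ?_⟩
  · rw [hag i (by omega), h1 i hi]
  · rw [hag N (by omega), h2]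

/-- The recoding of the family of cut systems. -/
theorem exists_recode : ∃ e : KT n ≃ₜ Par × (ℕ → Bool), ∀ z : KT n, (e z).1 = z.1.1 :=
  recode (KT n) (bb n) (isClosed_KT n) (continuous_bb n) (bb_sep n)
    (fun t => ⟨((0 : Gam n), dflt n t (chi n 0)), dflt_mem n t (GG n).zero_mem⟩)
    (fun t z N hz => by
      obtain ⟨z', h1, h2, h3⟩ := kk_perf n (show z ∈ KK n t from hz) N
      exact ⟨z', h1, h2, h3⟩)
    (kk_open n)

end Pool.Agent.FlipD
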