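import Pool.Agent.FlipD.Stone

/-!
# Borelness over odometers divisible by finitely many primes
-/

namespace Pool.Agent.FlipD

open Set Filter Topology TopologicalSpace MeasureTheory
open Pool.Agent.FlipC (Cantor MinHomeo Conj)

theorem polish_C {X Y : Type*} [TopologicalSpace X] [CompactSpace X] [SecondCountableTopology X]
    [T2Space X] [TopologicalSpace Y] [PolishSpace Y] : PolishSpace C(X, Y) := by
  let := TopologicalSpace.upgradeIsCompletelyMetrizable Y
  have : TopologicalSpace.IsCompletelyMetrizableSpace C(X, Y) := inferInstance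
  constructor

theorem polish_cantor : PolishSpace Cantor := by
  have h : ∀ _ : ℕ, TopologicalSpace.IsCompletelyMetrizableSpace Bool := fun _ => inferInstance
  have : TopologicalSpace.IsCompletelyMetrizableSpace (ℕ → Bool) :=
    TopologicalSpace.IsCompletelyMetrizableSpace.pi_countable
  constructor

theorem cont_iter (k : ℕ) : Continuous (fun p : C(Cantor, Cantor) × Cantor => (⇑p.1)^[k] p.2) := by
  induction k with
  | zero => exact continuous_snd
  | succ k ih =>
    have : (fun p : C(Cantor, Cantor) × Cantor => (⇑p.1)^[k + 1] p.2) =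
        fun p => p.1 ((⇑p.1)^[k] p.2) := by
      funext p
      exact Function.iterate_succ_apply' _ _ _
    rw [this]
    exact continuous_fst.eval ih

theorem isOpen_ret (i N : ℕ) :
    IsOpen {T : C(Cantor, Cantor) | ∀ z, ∃ k ≤ N, (⇑T)^[k] z ∈ UC i} := by
  have : {T : C(Cantor, Cantor) | ∀ z, ∃ k ≤ N, (⇑T)^[k] z ∈ UC i} =
      (Prod.fst '' {p : C(Cantor, Cantor) × Cantor | ∀ k ≤ N, (⇑p.1)^[k] p.2 ∉ UC i})ᶜ := by
    ext T
    constructor
    · rintro hT ⟨⟨T', z⟩, h1, rfl⟩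
      obtain ⟨k, hk, hz⟩ := hT z
      exact h1 k hk hz
    · intro hT z
      by_contra hcon
      push Not at hcon
      exact hT ⟨(T, z), hcon, rfl⟩
  rw [this, isOpen_compl_iff]
  refine isClosedMap_fst_of_compactSpace _ ?_
  have h2 : {p : C(Cantor, Cantor) × Cantor | ∀ k ≤ N, (⇑p.1)^[k] p.2 ∉ UC i} =
      ⋂ k, ⋂ (_ : k ≤ N), (fun p : C(Cantor, Cantor) × Cantor => (⇑p.1)^[k] p.2) ⁻¹'
        (UC i : Set Cantor)ᶜ := by
    ext p
    simp only [Set.mem_iInter]
    exact Iff.rfl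
  rw [h2]
  exact isClosed_iInter fun k => isClosed_iInter fun _ =>
    (UC i).isClopen.compl.isClosed.preimage (cont_iter k)

section

variable (n : ℕ → ℕ) [Od n]

/-- Data for an almost one-to-one extension. -/
abbrev Dt : Type := (C(Cantor, Cantor) × C(Cantor, Cantor)) × (C(Cantor, ∀ i, ZMod (n i)) × Cantor)

/-- The valid data. -/
def VS : Set (Dt n) := {d | VD n d.1.1 d.1.2 d.2.1 d.2.2}

theorem meas_VS [MeasurableSpace (Dt n)] [BorelSpace (Dt n)] : MeasurableSet (VS n) := by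
  have c1 : Continuous (fun d : Dt n => d.1.1) := continuous_fst.comp continuous_fst
  have c2 : Continuous (fun d : Dt n => d.1.2) := continuous_snd.comp continuous_fst
  have c3 : Continuous (fun d : Dt n => d.2.1) := continuous_fst.comp continuous_snd
  have c4 : Continuous (fun d : Dt n => d.2.2) := continuous_snd.comp continuous_snd
  have m1 : IsClosed {d : Dt n | ∀ x, d.1.2 (d.1.1 x) = x} := by
    have : {d : Dt n | ∀ x, d.1.2 (d.1.1 x) = x} = ⋂ x, {d : Dt n | d.1.2 (d.1.1 x) = x} := by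
      ext d; simp
    rw [this]
    exact isClosed_iInter fun x =>
      isClosed_eq (c2.eval (c1.eval continuous_const)) continuous_const
  have m2 : IsClosed {d : Dt n | ∀ x, d.1.1 (d.1.2 x) = x} := by
    have : {d : Dt n | ∀ x, d.1.1 (d.1.2 x) = x} = ⋂ x, {d : Dt n | d.1.1 (d.1.2 x) = x} := by
      ext d; simp
    rw [this]
    exact isClosed_iInter fun x =>
      isClosed_eq (c1.eval (c2.eval continuous_const)) continuous_const
  have m3 : MeasurableSet {d : Dt n | ∀ i, (UC i : Set Cantor).Nonempty →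
      ∃ N : ℕ, ∀ z, ∃ k ≤ N, (⇑d.1.1)^[k] z ∈ UC i} := by
    have : {d : Dt n | ∀ i, (UC i : Set Cantor).Nonempty →
        ∃ N : ℕ, ∀ z, ∃ k ≤ N, (⇑d.1.1)^[k] z ∈ UC i} =
        ⋂ i : ℕ, ⋂ (_ : (UC i : Set Cantor).Nonempty), ⋃ N : ℕ,
          {d : Dt n | ∀ z, ∃ k ≤ N, (⇑d.1.1)^[k] z ∈ UC i} := by
      ext d
      simp only [Set.mem_iInter, Set.mem_iUnion]
      exact Iff.rfl
    rw [this]
    exact MeasurableSet.iInter fun i => MeasurableSet.iInter fun _ => MeasurableSet.iUnion fun N =>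
      ((isOpen_ret i N).preimage c1).measurableSet
  have m4 : IsClosed {d : Dt n | ∀ x, d.2.1 x ∈ InvLim n} := by
    have : {d : Dt n | ∀ x, d.2.1 x ∈ InvLim n} = ⋂ x, {d : Dt n | d.2.1 x ∈ InvLim n} := by
      ext d; simp
    rw [this]
    exact isClosed_iInter fun x => (isClosed_GG n).preimage (c3.eval continuous_const)
  have m5 : IsClosed {d : Dt n | ∀ x, d.2.1 (d.1.1 x) = d.2.1 x + 1} := by
    have : {d : Dt n | ∀ x, d.2.1 (d.1.1 x) = d.2.1 x + 1} =
        ⋂ x, {d : Dt n | d.2.1 (d.1.1 x) = d.2.1 x + 1} := by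
      ext d; simp
    rw [this]
    exact isClosed_iInter fun x => isClosed_eq (c3.eval (c1.eval continuous_const))
      ((c3.eval continuous_const).add continuous_const)
  have m6 : MeasurableSet {d : Dt n | ∀ y, d.2.1 y = d.2.1 d.2.2 → y = d.2.2} := by
    have : {d : Dt n | ∀ y, d.2.1 y = d.2.1 d.2.2 → y = d.2.2} =
        ⋂ m : ℕ, (Prod.fst '' {p : Dt n × Cantor | p.1.2.1 p.2 = p.1.2.1 p.1.2.2 ∧
          p.2 m ≠ p.1.2.2 m})ᶜ := by
      ext d
      rw [Set.mem_iInter]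
      constructor
      · rintro hd m ⟨⟨d', y⟩, ⟨h1, h2⟩, rfl⟩
        exact h2 (congrFun (hd y h1) m)
      · intro hd y hy
        funext m
        by_contra h
        exact hd m ⟨(d, y), ⟨hy, h⟩, rfl⟩
    rw [this]
    refine MeasurableSet.iInter fun m => MeasurableSet.compl ?_
    refine (isClosedMap_fst_of_compactSpace _ ?_).measurableSet
    have e1 : Continuous (fun p : Dt n × Cantor => p.1.2.1 p.2) :=
      (c3.comp continuous_fst).eval continuous_snd
    have e2 : Continuous (fun p : Dt n × Cantor => p.1.2.1 p.1.2.2) :=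
      (c3.comp continuous_fst).eval (c4.comp continuous_fst)
    have e3 : Continuous (fun p : Dt n × Cantor => (p.2 m, p.1.2.2 m)) :=
      ((continuous_apply m).comp continuous_snd).prodMk
        ((continuous_apply m).comp (c4.comp continuous_fst))
    exact (isClosed_eq e1 e2).inter ((isClosed_discrete {b : Bool × Bool | b.1 ≠ b.2}).preimage e3)
  have : VS n = {d : Dt n | ∀ x, d.1.2 (d.1.1 x) = x} ∩ ({d : Dt n | ∀ x, d.1.1 (d.1.2 x) = x} ∩
      ({d : Dt n | ∀ i, (UC i : Set Cantor).Nonempty →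
        ∃ N : ℕ, ∀ z, ∃ k ≤ N, (⇑d.1.1)^[k] z ∈ UC i} ∩ ({d : Dt n | ∀ x, d.2.1 x ∈ InvLim n} ∩
      ({d : Dt n | ∀ x, d.2.1 (d.1.1 x) = d.2.1 x + 1} ∩
        {d : Dt n | ∀ y, d.2.1 y = d.2.1 d.2.2 → y = d.2.2})))) := by
    ext d
    constructor
    · intro h
      have h' : VD n d.1.1 d.1.2 d.2.1 d.2.2 := h
      exact ⟨h'.left, h'.right, h'.ret, h'.lim, h'.eqv, h'.single⟩
    · rintro ⟨h1, h2, h3, h4, h5, h6⟩
      exact (⟨h1, h2, h3, h4, h5, h6⟩ : VD n d.1.1 d.1.2 d.2.1 d.2.2)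
  rw [this]
  exact m1.measurableSet.inter (m2.measurableSet.inter (m3.inter (m4.measurableSet.inter
    (m5.measurableSet.inter m6))))

open Classical in
theorem cont_cod : Continuous (fun π : C(Cantor, ∀ i, ZMod (n i)) => cod n π) := by
  refine continuous_pi fun i => continuous_pi fun u => ?_
  have hcl : IsClopen {π : C(Cantor, ∀ i, ZMod (n i)) | ∃ x ∈ UC i, π x u.1 = u.2} := by
    constructor
    · have : {π : C(Cantor, ∀ i, ZMod (n i)) | ∃ x ∈ UC i, π x u.1 = u.2} =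
          Prod.fst '' {p : C(Cantor, ∀ i, ZMod (n i)) × Cantor | p.2 ∈ UC i ∧ p.1 p.2 u.1 = u.2} := by
        ext π
        constructor
        · rintro ⟨x, hx, hxu⟩
          exact ⟨(π, x), ⟨hx, hxu⟩, rfl⟩
        · rintro ⟨⟨π', x⟩, ⟨hx, hxu⟩, rfl⟩
          exact ⟨x, hx, hxu⟩
      rw [this]
      refine isClosedMap_fst_of_compactSpace _ ?_
      refine IsClosed.inter ?_ ?_
      · exact (UC i).isClopen.isClosed.preimage continuous_snd
      · exact isClosed_eq ((continuous_apply u.1).comp (continuous_fst.eval continuous_snd))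
          continuous_const
    · have : {π : C(Cantor, ∀ i, ZMod (n i)) | ∃ x ∈ UC i, π x u.1 = u.2} =
          ⋃ x, ⋃ (_ : x ∈ UC i), {π | π x u.1 = u.2} := by
        ext π; simp
      rw [this]
      refine isOpen_iUnion fun x => isOpen_iUnion fun _ => ?_
      have hc : Continuous (fun π : C(Cantor, ∀ i, ZMod (n i)) => π x u.1) :=
        (continuous_apply u.1).comp (continuous_eval_const x)
      exact (isOpen_discrete {u.2}).preimage hc
  rw [continuous_discrete_rng]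
  have h1 : (fun π : C(Cantor, ∀ i, ZMod (n i)) => cod n π i u) ⁻¹' {true} =
      {π | ∃ x ∈ UC i, π x u.1 = u.2} := by
    ext π
    exact cod_true n
  have h2 : (fun π : C(Cantor, ∀ i, ZMod (n i)) => cod n π i u) ⁻¹' {false} =
      {π | ∃ x ∈ UC i, π x u.1 = u.2}ᶜ := by
    ext π
    change cod n π i u = false ↔ ¬ ∃ x ∈ UC i, π x u.1 = u.2
    rw [← cod_true n, Bool.not_eq_true]
  intro c
  cases c
  · rw [h2]; exact hcl.compl.isOpen
  · rw [h1]; exact hcl.isOpen

/-- Almost one-to-one extensions have valid data. -/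
theorem exists_VD {T : C(Cantor, Cantor)} (hT : AlmostExt n T) :
    ∃ T' π x0, VD n T T' π x0 := by
  obtain ⟨⟨⟨e, he⟩, hd⟩, π, h1, h2, x0, h3⟩ := hT
  refine ⟨⟨e.symm, e.symm.continuous⟩, π, x0, fun x => ?_, fun x => ?_, fun i hi => ?_, h1, h2, h3⟩
  · change e.symm (T x) = x
    rw [← he, e.symm_apply_apply]
  · change T (e.symm x) = x
    rw [← he, e.apply_symm_apply]
  · let W : ℕ → Set Cantor := fun N => ⋃ k, ⋃ (_ : k ≤ N), (⇑T)^[k] ⁻¹' (UC i : Set Cantor)
    have hW : ∀ N, IsOpen (W N) := fun N => isOpen_iUnion fun k => isOpen_iUnion fun _ =>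
      (UC i).isClopen.isOpen.preimage (T.continuous.iterate k)
    have hcov : (Set.univ : Set Cantor) ⊆ ⋃ N, W N := by
      intro z _
      obtain ⟨y, hy⟩ := hi
      obtain ⟨_, ⟨hk1, ⟨k, rfl⟩⟩⟩ := (hd z).inter_open_nonempty _ (UC i).isClopen.isOpen ⟨y, hy⟩
      exact Set.mem_iUnion.2 ⟨k, Set.mem_iUnion.2 ⟨k, Set.mem_iUnion.2 ⟨le_rfl, hk1⟩⟩⟩
    have hdir : Directed (· ⊆ ·) W := by
      refine directed_of_isDirected_le fun N M hNM z hz => ?_
      obtain ⟨k, hz⟩ := Set.mem_iUnion.1 hz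
      obtain ⟨hk, hz⟩ := Set.mem_iUnion.1 hz
      exact Set.mem_iUnion.2 ⟨k, Set.mem_iUnion.2 ⟨le_trans hk hNM, hz⟩⟩
    obtain ⟨N, hN⟩ := (isCompact_univ (X := Cantor)).elim_directed_cover W hW hcov hdir
    refine ⟨N, fun z => ?_⟩
    obtain ⟨k, hz⟩ := Set.mem_iUnion.1 (hN (Set.mem_univ z))
    obtain ⟨hk, hz⟩ := Set.mem_iUnion.1 hz
    exact ⟨k, hk, hz⟩

/-- A relation read off Borel conditions on codes is relatively Borel. -/
theorem rel_borel (E : Set (Dt n × Dt n)) (hE : @MeasurableSet (Dt n × Dt n) (borel _) E)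
    (P : C(Cantor, Cantor) → C(Cantor, Cantor) → Prop)
    (hP : ∀ d ∈ VS n, ∀ d' ∈ VS n, (d, d') ∈ E ↔ P d.1.1 d'.1.1) :
    ∃ B : Set (C(Cantor, Cantor) × C(Cantor, Cantor)), @MeasurableSet _ (borel _) B ∧
      ∀ T S, AlmostExt n T → AlmostExt n S → ((T, S) ∈ B ↔ P T S) := by
  have p0 : PolishSpace Cantor := polish_cantor
  have p1 : PolishSpace C(Cantor, Cantor) := polish_C
  have p2 : PolishSpace (∀ i, ZMod (n i)) := inferInstance
  have p3 : PolishSpace C(Cantor, ∀ i, ZMod (n i)) := polish_C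
  have p4 : PolishSpace (Dt n) := inferInstance
  have p5 : PolishSpace (Dt n × Dt n) := by
    have h1 : TopologicalSpace.IsCompletelyMetrizableSpace (Dt n) := p4.toIsCompletelyMetrizableSpace
    have h2 : SecondCountableTopology (Dt n) := p4.toSecondCountableTopology
    have h3 : TopologicalSpace.IsCompletelyMetrizableSpace (Dt n × Dt n) :=
      TopologicalSpace.IsCompletelyMetrizableSpace.prod
    constructor
  letI m1 : MeasurableSpace (Dt n × Dt n) := borel _
  haveI b1 : BorelSpace (Dt n × Dt n) := ⟨rfl⟩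
  letI m2 : MeasurableSpace (Dt n) := borel _
  haveI b2 : BorelSpace (Dt n) := ⟨rfl⟩
  letI m3 : MeasurableSpace (C(Cantor, Cantor) × C(Cantor, Cantor)) := borel _
  haveI b3 : BorelSpace (C(Cantor, Cantor) × C(Cantor, Cantor)) := ⟨rfl⟩
  have hV : MeasurableSet {q : Dt n × Dt n | q.1 ∈ VS n ∧ q.2 ∈ VS n} :=
    ((meas_VS n).preimage continuous_fst.measurable).inter
      ((meas_VS n).preimage continuous_snd.measurable)
  have hc : Continuous (fun q : Dt n × Dt n => (q.1.1.1, q.2.1.1)) :=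
    (continuous_fst.comp (continuous_fst.comp continuous_fst)).prodMk
      (continuous_fst.comp (continuous_fst.comp continuous_snd))
  have a1 : AnalyticSet ((fun q : Dt n × Dt n => (q.1.1.1, q.2.1.1)) ''
      ({q : Dt n × Dt n | q.1 ∈ VS n ∧ q.2 ∈ VS n} ∩ E)) :=
    (hV.inter hE).analyticSet.image_of_continuous hc
  have a2 : AnalyticSet ((fun q : Dt n × Dt n => (q.1.1.1, q.2.1.1)) ''
      ({q : Dt n × Dt n | q.1 ∈ VS n ∧ q.2 ∈ VS n} ∩ Eᶜ)) :=
    (hV.inter (MeasurableSet.compl hE)).analyticSet.image_of_continuous hc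
  have hdis : Disjoint ((fun q : Dt n × Dt n => (q.1.1.1, q.2.1.1)) ''
      ({q : Dt n × Dt n | q.1 ∈ VS n ∧ q.2 ∈ VS n} ∩ E))
      ((fun q : Dt n × Dt n => (q.1.1.1, q.2.1.1)) ''
      ({q : Dt n × Dt n | q.1 ∈ VS n ∧ q.2 ∈ VS n} ∩ Eᶜ)) := by
    rw [Set.disjoint_left]
    rintro _ ⟨⟨d, d'⟩, ⟨⟨hd, hd'⟩, hE1⟩, rfl⟩ ⟨⟨c, c'⟩, ⟨⟨hc, hc'⟩, hE2⟩, heq⟩
    have h1 := (hP d hd d' hd').1 hE1
    have heq' : (c.1.1, c'.1.1) = (d.1.1, d'.1.1) := heq
    obtain ⟨h2, h3⟩ := Prod.mk.inj heq'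
    rw [← h2, ← h3] at h1
    exact hE2 ((hP c hc c' hc').2 h1)
  obtain ⟨B, hB1, hB2, hB3⟩ := a1.measurablySeparable a2 hdis
  refine ⟨B, hB3, fun T S hT hS => ?_⟩
  obtain ⟨T', π, x0, hd⟩ := exists_VD n hT
  obtain ⟨S', ρ, y0, hd'⟩ := exists_VD n hS
  have hiff := hP ((T, T'), (π, x0)) hd ((S, S'), (ρ, y0)) hd'
  constructor
  · intro hTS
    by_contra hcon
    exact Set.disjoint_left.1 hB2
      ⟨(((T, T'), (π, x0)), ((S, S'), (ρ, y0))), ⟨⟨hd, hd'⟩, fun h => hcon (hiff.1 h)⟩, rfl⟩ hTS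
  · intro hcon
    exact hB1 ⟨(((T, T'), (π, x0)), ((S, S'), (ρ, y0))), ⟨⟨hd, hd'⟩, hiff.2 hcon⟩, rfl⟩

/-- Conjugacy and flip conjugacy are relatively Borel. -/
theorem easy (hfin : (setOf (Qp n)).Finite) :
    ∃ B B' : Set (C(Cantor, Cantor) × C(Cantor, Cantor)),
      @MeasurableSet (C(Cantor, Cantor) × C(Cantor, Cantor)) (borel _) B ∧
      @MeasurableSet (C(Cantor, Cantor) × C(Cantor, Cantor)) (borel _) B' ∧
      ∀ T S, AlmostExt n T → AlmostExt n S →
        ((T, S) ∈ B ↔ Conj T S) ∧ ((T, S) ∈ B' ↔ FlipConj T S) := by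
  have hEq := eq_meas (actO_zero n) (actO_add n) (actO_cont n) (chain n hfin)
  have hc1 : Continuous (fun q : Dt n × Dt n => (cod n q.1.2.1, cod n q.2.2.1)) :=
    ((cont_cod n).comp (continuous_fst.comp (continuous_snd.comp continuous_fst))).prodMk
      ((cont_cod n).comp (continuous_fst.comp (continuous_snd.comp continuous_snd)))
  have hc2 : Continuous (fun q : Dt n × Dt n => (cod n q.1.2.1, cod n (-q.2.2.1))) :=
    ((cont_cod n).comp (continuous_fst.comp (continuous_snd.comp continuous_fst))).prodMk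
      ((cont_cod n).comp (continuous_neg.comp
        (continuous_fst.comp (continuous_snd.comp continuous_snd))))
  have hE1 := hc1.borel_measurable hEq
  have hE2 := hc2.borel_measurable hEq
  obtain ⟨B, hB, hB2⟩ := rel_borel n _ hE1 Conj (fun d hd d' hd' => (conj_iff hd hd').symm)
  obtain ⟨B', hB', hB2'⟩ := rel_borel n _ (MeasurableSet.union hE1 hE2) FlipConj
    (fun d hd d' hd' => by
      have h1 := conj_iff hd hd'
      have h2 := conj_iff hd (VD.inv hd')
      have hd'2 : VD n d'.1.1 d'.1.2 d'.2.1 d'.2.2 := hd'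
      change (Eq' (actO n) (cod n d.2.1) (cod n d'.2.1) ∨
        Eq' (actO n) (cod n d.2.1) (cod n (-d'.2.1))) ↔ _
      rw [← h1, ← h2]
      unfold FlipConj
      refine or_congr Iff.rfl ?_
      constructor
      · rintro ⟨e, he⟩
        exact ⟨e, fun x => by rw [he, hd'2.right]⟩
      · rintro ⟨e, he⟩
        exact ⟨e, fun x => by rw [← he x, hd'2.left]⟩)
  exact ⟨B, B', hB, hB', fun T S hT hS => ⟨hB2 T S hT hS, hB2' T S hT hS⟩⟩

end

end Pool.Agent.FlipD
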