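import Pool.Agent.FlipD.Rig
import Pool.Agent.FlipC.Tree
import Pool.Agent.FlipC.Fam

/-!
# Hardness over odometers divisible by infinitely many primes
-/

namespace Pool.Agent.FlipD

open Set Filter Topology MeasureTheory
open Pool.Agent.FlipC (par Par Cantor MinHomeo Conj Factor InvFactor exists_trees
  exists_analytic_not_borel)

variable (n : ℕ → ℕ) [Od n] [Inf n]

/-- All cut systems, realised on Cantor space, continuously in the parameter. -/
theorem exists_family : ∃ (F : C(Par, C(Cantor, Cantor))) (Ψ : ∀ t : Par, KS n t ≃ₜ Cantor),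
    ∀ t z, F t (Ψ t z) = Ψ t (sk n 1 z) := by
  obtain ⟨e, he⟩ := exists_recode n
  exact Pool.Agent.FlipC.family_gen (KT n) e he (sg n 1) (continuous_sg n 1)
    (fun t z hz => sg_mem n 1 hz)

section

variable {F : C(Par, C(Cantor, Cantor))} {Ψ : ∀ t : Par, KS n t ≃ₜ Cantor}
  (hF : ∀ t z, F t (Ψ t z) = Ψ t (sk n 1 z))

include hF

theorem fam_symm (t : Par) (x : Cantor) : (Ψ t).symm (F t x) = sk n 1 ((Ψ t).symm x) := by
  apply (Ψ t).injective
  rw [(Ψ t).apply_symm_apply, ← hF, (Ψ t).apply_symm_apply]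

theorem fam_iter (t : Par) (k : ℕ) (x : Cantor) :
    (⇑(F t))^[k] x = Ψ t (sk n k ((Ψ t).symm x)) := by
  induction k with
  | zero =>
    rw [Function.iterate_zero_apply, Nat.cast_zero, sk_zero, (Ψ t).apply_symm_apply]
  | succ k ih =>
    rw [Function.iterate_succ_apply', ih, hF, sk_sk]
    congr 2
    push_cast
    ring

theorem fam_min (t : Par) : MinHomeo (F t) := by
  refine ⟨?_, ?_⟩
  · let s : KS n t ≃ₜ KS n t :=
      { toFun := sk n 1
        invFun := sk n (-1)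
        left_inv := fun z => by rw [sk_sk]; norm_num; exact sk_zero n z
        right_inv := fun z => by rw [sk_sk]; norm_num; exact sk_zero n z
        continuous_toFun := continuous_sk n 1
        continuous_invFun := continuous_sk n (-1) }
    refine ⟨((Ψ t).symm.trans s).trans (Ψ t), fun x => ?_⟩
    change Ψ t (sk n 1 ((Ψ t).symm x)) = F t x
    rw [← hF, (Ψ t).apply_symm_apply]
  · intro x y
    obtain ⟨u, hu⟩ := kk_dense n ((Ψ t).symm x).2 ((Ψ t).symm y).2
    have hu' : Tendsto (fun i => sk n (u i) ((Ψ t).symm x)) atTop (𝓝 ((Ψ t).symm y)) := by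
      rw [tendsto_subtype_rng]
      exact hu
    have h1 : Tendsto (fun i => Ψ t (sk n (u i) ((Ψ t).symm x))) atTop (𝓝 y) := by
      have := ((Ψ t).continuous.tendsto ((Ψ t).symm y)).comp hu'
      rw [(Ψ t).apply_symm_apply] at this
      exact this
    refine mem_closure_of_tendsto h1 (Eventually.of_forall fun i => ⟨u i, ?_⟩)
    exact fam_iter n hF t (u i) x

theorem fam_regExt (t : Par) : RegExt n (F t) := by
  refine ⟨fam_min n hF t, ⟨fun x => ((Ψ t).symm x).1.1,
      continuous_fst.comp (continuous_subtype_val.comp (Ψ t).symm.continuous)⟩, fun x => ?_,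
      fun x => ?_, ?_, ?_⟩
  · exact ((Ψ t).symm x).2.1
  · change ((Ψ t).symm (F t x)).1.1 = ((Ψ t).symm x).1.1 + 1
    rw [fam_symm n hF]
    change ((Ψ t).symm x).1.1 + (((1 : ℤ) : ℤ) : Gam n) = _
    rw [Int.cast_one]
  · obtain ⟨z, hz⟩ := exists_single n t
    refine ⟨Ψ t z, fun y hy => ?_⟩
    change ((Ψ t).symm y).1.1 = ((Ψ t).symm (Ψ t z)).1.1 at hy
    rw [(Ψ t).symm_apply_apply] at hy
    rw [← hz _ hy, (Ψ t).apply_symm_apply]
  · intro i1 i2 ν hν hinv
    refine measure_mono_null ?_ (@proj_null n _ _ t i1 i2 ν hν hinv)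
    rintro g ⟨x, y, hxy, hx, hy⟩
    exact ⟨(Ψ t).symm x, (Ψ t).symm y, fun h => hxy ((Ψ t).symm.injective h), hx, hy⟩

theorem fam_conj {T : ℕ → ℕ → Bool} {v : ℕ → ℕ} (hv1 : ∀ l, par (v (l + 1)) = v l)
    (hv2 : ∀ l, 0 < l → T l (v l) = true) : Conj (F (false, T)) (F (true, T)) := by
  obtain ⟨I, hI⟩ := branch_iso n hv1 hv2
  refine ⟨((Ψ (false, T)).symm.trans I).trans (Ψ (true, T)), fun x => ?_⟩
  change Ψ (true, T) (I ((Ψ (false, T)).symm (F (false, T) x))) =
    F (true, T) (Ψ (true, T) (I ((Ψ (false, T)).symm x)))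
  rw [fam_symm n hF, hI, hF]

theorem fam_factor {T : ℕ → ℕ → Bool} {c c' : Bool} (hcc : c ≠ c')
    (h : Factor (F (c, T)) (F (c', T)) ∨ InvFactor (F (c, T)) (F (c', T))) :
    ∃ v : ℕ → ℕ, (∀ l, par (v (l + 1)) = v l) ∧ ∀ l, 0 < l → T l (v l) = true := by
  rcases h with ⟨φ, hs, hφ⟩ | ⟨φ, hs, hφ⟩
  · refine rigid_all n hcc (Φ := fun z => (Ψ (c', T)).symm (φ (Ψ (c, T) z)))
      ((Ψ (c', T)).symm.continuous.comp (φ.continuous.comp (Ψ (c, T)).continuous))
      ((Ψ (c', T)).symm.surjective.comp (hs.comp (Ψ (c, T)).surjective)) (Or.inl fun z => ?_)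
    change (Ψ (c', T)).symm (φ (Ψ (c, T) (sk n 1 z))) = sk n 1 ((Ψ (c', T)).symm (φ (Ψ (c, T) z)))
    rw [← hF, hφ, fam_symm n hF]
  · refine rigid_all n hcc (Φ := fun z => (Ψ (c', T)).symm (φ (Ψ (c, T) z)))
      ((Ψ (c', T)).symm.continuous.comp (φ.continuous.comp (Ψ (c, T)).continuous))
      ((Ψ (c', T)).symm.surjective.comp (hs.comp (Ψ (c, T)).surjective)) (Or.inr fun z => ?_)
    change sk n 1 ((Ψ (c', T)).symm (φ (Ψ (c, T) (sk n 1 z)))) =
      (Ψ (c', T)).symm (φ (Ψ (c, T) z))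
    rw [← hF, ← fam_symm n hF, hφ]

end

/-- The reduction. -/
theorem reduction {A : Set (ℕ → ℕ)} (hA : AnalyticSet A) :
    ∃ f g : (ℕ → ℕ) → C(Cantor, Cantor), Continuous f ∧ Continuous g ∧
      (∀ a, RegExt n (f a) ∧ RegExt n (g a)) ∧ (∀ a ∈ A, Conj (f a) (g a)) ∧
      ∀ a ∉ A, ¬ Factor (f a) (g a) ∧ ¬ Factor (g a) (f a) ∧ ¬ InvFactor (f a) (g a) ∧
        ¬ InvFactor (g a) (f a) := by
  obtain ⟨τ, hτ, hAτ⟩ := exists_trees hA
  obtain ⟨F, Ψ, hF⟩ := exists_family n
  refine ⟨fun a => F (false, τ a), fun a => F (true, τ a),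
    F.continuous.comp (continuous_const.prodMk hτ), F.continuous.comp (continuous_const.prodMk hτ),
    fun a => ⟨fam_regExt n hF _, fam_regExt n hF _⟩, fun a ha => ?_, fun a ha => ?_⟩
  · obtain ⟨v, hv1, hv2⟩ := (hAτ a).1 ha
    exact fam_conj n hF hv1 hv2
  · refine ⟨fun h => ha ?_, fun h => ha ?_, fun h => ha ?_, fun h => ha ?_⟩
    · exact (hAτ a).2 (fam_factor n hF (by decide) (Or.inl h))
    · exact (hAτ a).2 (fam_factor n hF (by decide) (Or.inl h))
    · exact (hAτ a).2 (fam_factor n hF (by decide) (Or.inr h))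
    · exact (hAτ a).2 (fam_factor n hF (by decide) (Or.inr h))

/-- No Borel relation lies between conjugacy and the factor relations. -/
theorem not_borel (R : Set (C(Cantor, Cantor) × C(Cantor, Cantor)))
    (h1 : ∀ T S, RegExt n T → RegExt n S → Conj T S → (T, S) ∈ R)
    (h2 : ∀ T S, RegExt n T → RegExt n S → (T, S) ∈ R →
      Factor T S ∨ Factor S T ∨ InvFactor T S ∨ InvFactor S T) :
    ¬ @MeasurableSet (C(Cantor, Cantor) × C(Cantor, Cantor))
      (borel (C(Cantor, Cantor) × C(Cantor, Cantor))) R := by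
  intro hR
  obtain ⟨D, hD, hDn⟩ := exists_analytic_not_borel
  obtain ⟨f, g, hf, hg, hr, hc, hn⟩ := reduction n hD
  apply hDn
  have hpre : (fun a => (f a, g a)) ⁻¹' R = D := by
    ext a
    constructor
    · intro ha
      by_contra hcon
      obtain ⟨n1, n2, n3, n4⟩ := hn a hcon
      rcases h2 _ _ (hr a).1 (hr a).2 ha with h | h | h | h
      · exact n1 h
      · exact n2 h
      · exact n3 h
      · exact n4 h
    · intro ha
      exact h1 _ _ (hr a).1 (hr a).2 (hc a ha)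
  rw [← hpre]
  have hcont : Continuous (fun a => (f a, g a)) := hf.prodMk hg
  exact hcont.borel_measurable hR

end Pool.Agent.FlipD
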