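import Pool.Agent.FlipD.Cut

/-!
# Rigidity of factor maps between cut systems over a general odometer
-/

namespace Pool.Agent.FlipD

open Set Filter Topology MeasureTheory
open Pool.Agent.FlipC (Ix co co_inj co_inj_par par Pt Fm ev ev_sub ev_smul ev_int Jm E E_sub E_smul
  E_int Par tot tot_sub tot_smul tot_single bv Val bt isClopen_imp isClopen_val Jm_co
  exists_private Val_int tendsto_of_bits recode)

variable (n : ℕ → ℕ) [Od n] [Inf n]

/-- The space of the cut system. -/
abbrev KS (t : Par) : Type := {z : Om n // z ∈ KK n t}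

/-- The integer translations on the cut system. -/
noncomputable def sk {t : Par} (k : ℤ) (z : KS n t) : KS n t := ⟨sg n k z.1, sg_mem n k z.2⟩

theorem continuous_sk {t : Par} (k : ℤ) : Continuous (sk n (t := t) k) :=
  ((continuous_sg n k).comp continuous_subtype_val).subtype_mk _

theorem sk_sk {t : Par} (k l : ℤ) (z : KS n t) : sk n k (sk n l z) = sk n (k + l) z :=
  Subtype.ext (sg_sg n k l z.1)

theorem sk_zero {t : Par} (z : KS n t) : sk n 0 z = z := Subtype.ext (sg_zero n z.1)

theorem odo_int_apply (k : ℤ) (m : ℕ) : ((k : ℤ) : Qo n) m = (k : ZMod (Nat.nth (Qp n) m)) := rfl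

/-- The parity pattern. -/
noncomputable def xi : Qo n := fun m => if Odd (co.symm m).2 then 1 else 0

/-- The parity pattern on private coordinates is not integral. -/
theorem xi_not_int {l : ℕ} {c : ℤ} (h : ∀ k, ((c : ℤ) : ZMod (Nat.nth (Qp n) (co (some (Sum.inl l), k)))) =
    xi n (co (some (Sum.inl l), k))) : False := by
  have h0 : c = 0 := by
    refine int_inj n (co_inj_par (some (Sum.inl l)) 0) (fun k => ?_)
    have h1 := h (2 * k + 0)
    rw [h1]
    have : ¬ Odd (co.symm (co (some (Sum.inl l), 2 * k + 0))).2 := by simp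
    simp only [xi, if_neg this, Int.cast_zero]
  have h1 : c = 1 := by
    refine int_inj n (co_inj_par (some (Sum.inl l)) 1) (fun k => ?_)
    have h1 := h (2 * k + 1)
    rw [h1]
    have : Odd (co.symm (co (some (Sum.inl l), 2 * k + 1))).2 := by simp
    simp only [xi, if_pos this, Int.cast_one]
  omega

theorem hit_private {l : ℕ} {p : Pt} {g : Qo n} (h : Hit n l p g) (k : ℕ) :
    g (co (some (Sum.inl l), k)) = ((p.1 : ℤ) : ZMod (Nat.nth (Qp n) (co (some (Sum.inl l), k)))) := by
  have h1 := h (co (some (Sum.inl l), k)) ((Jm_co _ _ _).2 rfl)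
  have h2 : E l p (co (some (Sum.inl l), k)) = p.1 := by simp [E, ev]
  rw [h2] at h1
  exact h1

theorem xi_no_hit (l : ℕ) (p : Pt) : ¬ Hit n l p (xi n) := by
  intro h
  exact xi_not_int n (fun k => (hit_private n h k).symm)

/-- A point with a prescribed hit and nothing else prescribed. -/
theorem upd_mem {t : Par} {l : ℕ} {p : Pt} (hv : Val t l p) {g : Gam n} (hG : g ∈ GG n)
    (hg : Hit n l p (chi n g)) (c : Bool) : ∃ y : Om n, y ∈ KK n t ∧ y.1 = g ∧ y.2 l p = c := by
  classical
  refine ⟨(g, fun l1 p1 => if l1 = l ∧ p1 = p then c else dflt n t (chi n g) l1 p1), ⟨hG, ?_⟩,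
    rfl, ?_⟩
  · intro l1 p1
    change (Val t l1 p1 → ∀ m, Fst n l1 p1 (chi n g) m →
      (if l1 = l ∧ p1 = p then c else dflt n t (chi n g) l1 p1) = bt l1 m) ∧
      (¬ Val t l1 p1 → (if l1 = l ∧ p1 = p then c else dflt n t (chi n g) l1 p1) = false)
    by_cases h : l1 = l ∧ p1 = p
    · obtain ⟨rfl, rfl⟩ := h
      exact ⟨fun _ m hm => absurd hm (hit_not_Fst n hg m), fun h => absurd hv h⟩
    · rw [if_neg h]
      exact dflt_spec n t (chi n g) l1 p1
  · simp

theorem rigid {t t' : Par} {Φ : KS n t → KS n t'} (hc : Continuous Φ) (hs : Function.Surjective Φ)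
    {ς : ℤ} (hς : ς = 1 ∨ ς = -1)
    (hΦ : ∀ z : KS n t, (Φ (sk n 1 z)).1.1 = (Φ z).1.1 + ((ς : ℤ) : Gam n)) :
    ∃ θ : Qo n, ∀ l p', Val t' l p' → ∃ p, Val t l p ∧ Hit n l (p' - ς • p) θ := by
  classical
  let d : KS n t → Gam n := fun z => (Φ z).1.1 - ((ς : ℤ) : Gam n) * z.1.1
  have hd1 : ∀ z, d (sk n 1 z) = d z := by
    intro z
    have h2 : (sk n 1 z).1.1 = z.1.1 + 1 := by
      change z.1.1 + (((1 : ℤ) : ℤ) : Gam n) = z.1.1 + 1
      rw [Int.cast_one]
    simp only [d]
    rw [hΦ, h2]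
    ring
  have hdk : ∀ (k : ℕ) z, d (sk n k z) = d z := by
    intro k
    induction k with
    | zero => intro z; rw [Nat.cast_zero, sk_zero]
    | succ k ih =>
      intro z
      have : sk n ((k + 1 : ℕ) : ℤ) z = sk n 1 (sk n k z) := by
        rw [sk_sk]; congr 1; push_cast; ring
      rw [this, hd1, ih]
  have hdc : Continuous d := by
    refine Continuous.sub ?_ ?_
    · exact continuous_fst.comp (continuous_subtype_val.comp hc)
    · exact continuous_const.mul (continuous_fst.comp continuous_subtype_val)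
  have hconst : ∀ z z', d z' = d z := by
    intro z z'
    obtain ⟨u, hu⟩ := kk_dense n z.2 z'.2
    have hu' : Tendsto (fun i => sk n (u i) z) atTop (𝓝 z') := by
      rw [tendsto_subtype_rng]
      exact hu
    have h1 : Tendsto (fun i => d (sk n (u i) z)) atTop (𝓝 (d z')) :=
      (hdc.tendsto z').comp hu'
    have h2 : (fun i => d (sk n (u i) z)) = fun _ => d z := by
      funext i; exact hdk _ z
    rw [h2] at h1
    exact tendsto_nhds_unique h1 tendsto_const_nhds
  let z0 : KS n t := ⟨((0 : Gam n), dflt n t (chi n 0)), dflt_mem n t (GG n).zero_mem⟩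
  let Θ : Gam n := d z0
  have hθ : ∀ z, (Φ z).1.1 = ((ς : ℤ) : Gam n) * z.1.1 + Θ := by
    intro z
    have h1 : d z = Θ := hconst z0 z
    have h2 : d z = (Φ z).1.1 - ((ς : ℤ) : Gam n) * z.1.1 := rfl
    rw [← h1, h2]
    ring
  have hsq : ((ς : ℤ) : Gam n) * ((ς : ℤ) : Gam n) = 1 := by
    rcases hς with h | h <;> rw [h] <;> simp
  have hsq' : ((ς : ℤ) : Qo n) * ((ς : ℤ) : Qo n) = 1 := by
    rcases hς with h | h <;> rw [h] <;> simp
  let θ : Qo n := chi n Θ
  refine ⟨θ, fun l p' hv' => ?_⟩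
  let a' : Qo n := fun m => if Jm l m then ((E l p' m : ℤ) : ZMod (Nat.nth (Qp n) m))
    else θ m + ((ς : ℤ) : ZMod (Nat.nth (Qp n) m)) * xi n m
  obtain ⟨g', hgG', hga'⟩ := chi_surj n a'
  have hg' : Hit n l p' (chi n g') := by
    intro m hm
    rw [hga']
    exact if_pos hm
  obtain ⟨y1, hy1, hy1g, hy1c⟩ := upd_mem n hv' hgG' hg' true
  obtain ⟨y0, hy0, hy0g, hy0c⟩ := upd_mem n hv' hgG' hg' false
  obtain ⟨w1, hw1⟩ := hs ⟨y1, hy1⟩
  obtain ⟨w0, hw0⟩ := hs ⟨y0, hy0⟩
  have hg1 : w1.1.1 = ((ς : ℤ) : Gam n) * (g' - Θ) := by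
    have h1 := hθ w1
    rw [hw1] at h1
    change y1.1 = _ at h1
    rw [hy1g] at h1
    rw [h1, add_sub_cancel_right, ← mul_assoc, hsq, one_mul]
  have hg0 : w0.1.1 = ((ς : ℤ) : Gam n) * (g' - Θ) := by
    have h1 := hθ w0
    rw [hw0] at h1
    change y0.1 = _ at h1
    rw [hy0g] at h1
    rw [h1, add_sub_cancel_right, ← mul_assoc, hsq, one_mul]
  have hne : w1.1 ≠ w0.1 := by
    intro h
    have h1 : w1 = w0 := Subtype.ext h
    rw [h1, hw0] at hw1
    have h2 : y0 = y1 := congrArg Subtype.val hw1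
    rw [h2, hy1c] at hy0c
    exact Bool.noConfusion hy0c
  obtain ⟨l0, p, hv, hh⟩ := exists_hit n w1.2 w0.2 (hg1.trans hg0.symm) hne
  have hchi : chi n w1.1.1 = ((ς : ℤ) : Qo n) * (a' - θ) := by
    rw [hg1, map_mul, map_sub, map_intCast, hga']
  rw [hchi] at hh
  have hn0 : l0 = l := by
    by_contra hnn
    have hJ : ∀ k, ¬ Jm l (co (some (Sum.inl l0), k)) := by
      intro k
      rw [Jm_co]
      exact hnn
    refine xi_not_int n (l := l0) (c := p.1) (fun k => ?_)
    rw [← hit_private n hh k]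
    have h3 : a' (co (some (Sum.inl l0), k)) = θ (co (some (Sum.inl l0), k)) +
        ((ς : ℤ) : ZMod (Nat.nth (Qp n) (co (some (Sum.inl l0), k)))) *
          xi n (co (some (Sum.inl l0), k)) := if_neg (hJ k)
    rw [Pi.mul_apply, Pi.sub_apply, h3, add_sub_cancel_left, odo_int_apply, ← mul_assoc]
    have h4 := congrFun hsq' (co (some (Sum.inl l0), k))
    rw [Pi.mul_apply, odo_int_apply, Pi.one_apply] at h4
    rw [h4, one_mul]
  subst hn0
  refine ⟨p, hv, fun m hm => ?_⟩
  have h1 := hh m hm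
  have h5 : a' m = ((E l0 p' m : ℤ) : ZMod (Nat.nth (Qp n) m)) := if_pos hm
  rw [Pi.mul_apply, Pi.sub_apply, h5, odo_int_apply] at h1
  have h4 := congrFun hsq' m
  rw [Pi.mul_apply, odo_int_apply, Pi.one_apply] at h4
  rw [E_sub, E_smul, Int.cast_sub, Int.cast_mul, ← h1, ← mul_assoc, h4, one_mul]
  ring

/-- From the translation data to an infinite branch. -/
theorem rigid_branch {T : ℕ → ℕ → Bool} {c c' : Bool} (hcc : c ≠ c') {θ : Qo n} {ς : ℤ}
    (hς : ς = 1 ∨ ς = -1)
    (h : ∀ l p', Val (c', T) l p' → ∃ p, Val (c, T) l p ∧ Hit n l (p' - ς • p) θ) :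
    ∃ v : ℕ → ℕ, (∀ l, par (v (l + 1)) = v l) ∧ ∀ l, 0 < l → T l (v l) = true := by
  have hq : ∀ l, ∃ q : Pt, Hit n l q θ ∧ (l = 0 → tot q.2 ≠ 0) ∧
      (0 < l → ∀ s ∈ q.2.support, T l s = true) := by
    intro l
    rcases Nat.eq_zero_or_pos l with rfl | hn
    · obtain ⟨p, hp, hH⟩ := h 0 (0, Finsupp.single 0 (bv c'))
        ⟨fun _ => tot_single 0 _, fun h => absurd h (lt_irrefl 0)⟩
      refine ⟨_, hH, fun _ => ?_, fun h => absurd h (lt_irrefl 0)⟩
      have h1 : tot ((((0 : ℤ), Finsupp.single 0 (bv c')) : Pt) - ς • p).2 =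
          bv c' - ς * bv c := by
        have h2 := hp.1 rfl
        rw [Prod.snd_sub, Prod.smul_snd, tot_sub, tot_smul, tot_single, h2]
      rw [h1]
      revert hcc
      rcases hς with rfl | rfl <;> cases c <;> cases c' <;> simp [bv]
    · obtain ⟨p, hp, hH⟩ := h l 0 ⟨fun h => absurd h hn.ne', fun _ s hs => by simp at hs⟩
      refine ⟨_, hH, fun h => absurd h hn.ne', fun _ s hs => ?_⟩
      refine hp.2 hn s ?_
      rw [Finsupp.mem_support_iff] at hs ⊢
      intro h0
      apply hs
      rw [Prod.snd_sub, Prod.smul_snd, Finsupp.sub_apply, Finsupp.smul_apply, h0]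
      simp
  choose q hq1 hq2 hq3 using hq
  have hmap : ∀ l, (q l).2 = Finsupp.mapDomain par (q (l + 1)).2 := by
    intro l
    have h1 : (q l).1 = (q (l + 1)).1 :=
      hit_ev n (hq1 l) (hq1 (l + 1)) (i := none) trivial trivial
    ext s
    have h2 := hit_ev n (hq1 l) (hq1 (l + 1)) (i := some (Sum.inr (l, s))) (Or.inl rfl)
      (Or.inr rfl)
    simp only [ev, if_true, h1, if_neg (Nat.succ_ne_self l).symm] at h2
    omega
  have hnext : ∀ l s, s ∈ (q l).2.support → ∃ s', s' ∈ (q (l + 1)).2.support ∧ par s' = s := by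
    classical
    intro l s hs
    rw [hmap l] at hs
    have h1 := Finsupp.mapDomain_support hs
    rw [Finset.mem_image] at h1
    exact h1
  choose nx hnx1 hnx2 using hnext
  have h0 : ∃ s, s ∈ (q 0).2.support := by
    by_contra hcon
    push Not at hcon
    apply hq2 0 rfl
    have : (q 0).2 = 0 := by
      ext s
      exact Finsupp.notMem_support_iff.1 (hcon s)
    rw [this]
    simp [tot]
  obtain ⟨s0, hs0⟩ := h0
  let w : ∀ l, {s : ℕ // s ∈ (q l).2.support} := fun l =>
    Nat.rec (motive := fun l => {s : ℕ // s ∈ (q l).2.support}) ⟨s0, hs0⟩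
      (fun l x => ⟨nx l x.1 x.2, hnx1 l x.1 x.2⟩) l
  refine ⟨fun l => (w l).1, fun l => hnx2 l (w l).1 (w l).2, fun l hl => hq3 l hl _ (w l).2⟩

/-- Factor maps between the two systems of a tree force an infinite branch. -/
theorem rigid_all {T : ℕ → ℕ → Bool} {c c' : Bool} (hcc : c ≠ c')
    {Φ : KS n (c, T) → KS n (c', T)} (hc : Continuous Φ) (hs : Function.Surjective Φ)
    (hΦ : (∀ z, Φ (sk n 1 z) = sk n 1 (Φ z)) ∨ (∀ z, sk n 1 (Φ (sk n 1 z)) = Φ z)) :
    ∃ v : ℕ → ℕ, (∀ l, par (v (l + 1)) = v l) ∧ ∀ l, 0 < l → T l (v l) = true := by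
  rcases hΦ with h | h
  · obtain ⟨θ, hθ⟩ := rigid n hc hs (Or.inl rfl : (1 : ℤ) = 1 ∨ (1 : ℤ) = -1)
      (fun z => by rw [h z]; rfl)
    exact rigid_branch n hcc (Or.inl rfl) hθ
  · obtain ⟨θ, hθ⟩ := rigid n hc hs (Or.inr rfl : (-1 : ℤ) = 1 ∨ (-1 : ℤ) = -1)
      (fun z => by
        have h1 : Φ (sk n 1 z) = sk n (-1) (Φ z) := by
          rw [← h z, sk_sk]
          norm_num
          rw [sk_zero]
        rw [h1]; rfl)
    exact rigid_branch n hcc (Or.inr rfl) hθ

/-- An infinite branch gives a conjugacy. -/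
theorem branch_iso {T : ℕ → ℕ → Bool} {v : ℕ → ℕ} (hv1 : ∀ l, par (v (l + 1)) = v l)
    (hv2 : ∀ l, 0 < l → T l (v l) = true) :
    ∃ Ψ : KS n (false, T) ≃ₜ KS n (true, T), ∀ z, Ψ (sk n 1 z) = sk n 1 (Ψ z) := by
  classical
  let q : ℕ → Pt := fun l => (0, Finsupp.single (v l) 1)
  let val : Ix → ℤ := fun i => match i with
    | none => 0
    | some (Sum.inl _) => 0
    | some (Sum.inr (l, s)) => if s = v l then 1 else 0
  let θ : Qo n := fun m => ((val (co.symm m).1 : ℤ) : ZMod (Nat.nth (Qp n) m))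
  obtain ⟨Θ, hΘG, hΘ⟩ := chi_surj n θ
  have hθ : ∀ l, Hit n l (q l) (chi n Θ) := by
    intro l m hm
    rw [hΘ]
    have key : ∀ i, Fm l i → val i = ev l (q l) i := by
      intro i hi
      rcases i with _ | (m | ⟨l', s⟩)
      · rfl
      · rfl
      · simp only [val, ev, q]
        by_cases hl : l' = l
        · subst hl
          rw [if_pos rfl, zero_add, Finsupp.single_apply]
          simp only [eq_comm]
        · have hl' : l' + 1 = l := by
            rcases hi with h | h
            · exact absurd h hl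
            · exact h
          subst hl'
          rw [if_neg hl, zero_add, Finsupp.mapDomain_single, hv1, Finsupp.single_apply]
          simp only [eq_comm]
    simp only [θ, E]
    rw [key _ hm]
  have hθ' : ∀ l, Hit n l (-(q l)) (chi n (-Θ)) := by
    intro l m hm
    have h1 : E l (-(q l)) m = - E l (q l) m := by
      have := E_sub l 0 (q l) m
      rw [zero_sub] at this
      rw [this]
      have h0 : E l 0 m = 0 := E_int l 0 m
      rw [h0, zero_sub]
    rw [h1, map_neg, Pi.neg_apply, hθ l m hm, Int.cast_neg]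
  have hval : ∀ l p, Val (true, T) l p ↔ Val (false, T) l (p - q l) := by
    intro l p
    unfold Val
    refine and_congr ?_ ?_
    · refine forall_congr' fun hn => ?_
      simp only [q, Prod.snd_sub, tot_sub, tot_single, bv]
      simp only [if_true, Bool.false_eq_true, if_false]
      constructor <;> intro h <;> omega
    · refine forall_congr' fun hn => ?_
      constructor
      · intro h s hs
        by_cases hsv : s = v l
        · rw [hsv]; exact hv2 l hn
        · refine h s ?_
          rw [Finsupp.mem_support_iff] at hs ⊢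
          simpa [q, Finsupp.single_apply, Ne.symm hsv] using hs
      · intro h s hs
        by_cases hsv : s = v l
        · rw [hsv]; exact hv2 l hn
        · refine h s ?_
          rw [Finsupp.mem_support_iff] at hs ⊢
          simpa [q, Finsupp.single_apply, Ne.symm hsv] using hs
  have hval' : ∀ l p, Val (false, T) l p ↔ Val (true, T) l (p - (-(q l))) := by
    intro l p
    rw [hval l (p - (-(q l)))]
    simp
  have e1 : ∀ z : Om n, tr n (-Θ) (fun l => -(q l)) (tr n Θ q z) = z := by
    intro z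
    rw [tr_tr]
    have h1 : ((fun l => -(q l)) + q) = 0 := by funext l; simp
    rw [h1, add_neg_cancel, tr_zero]
  have e2 : ∀ z : Om n, tr n Θ q (tr n (-Θ) (fun l => -(q l)) z) = z := by
    intro z
    rw [tr_tr]
    have h1 : (q + fun l => -(q l)) = 0 := by funext l; simp
    rw [h1, neg_add_cancel, tr_zero]
  refine ⟨{ toFun := fun z => ⟨tr n Θ q z.1, tr_mem n hΘG hθ hval z.2⟩
            invFun := fun z => ⟨tr n (-Θ) (fun l => -(q l)) z.1,
              tr_mem n ((GG n).neg_mem hΘG) hθ' hval' z.2⟩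
            left_inv := fun z => Subtype.ext (e1 z.1)
            right_inv := fun z => Subtype.ext (e2 z.1)
            continuous_toFun :=
              ((continuous_tr n Θ q).comp continuous_subtype_val).subtype_mk _
            continuous_invFun :=
              ((continuous_tr n (-Θ) _).comp continuous_subtype_val).subtype_mk _ }, ?_⟩
  intro z
  refine Subtype.ext ?_
  change tr n Θ q (tr n _ _ z.1) = tr n _ _ (tr n Θ q z.1)
  rw [tr_tr, tr_tr, add_comm, add_comm q]

/-! ### Null sets and points with one preimage -/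

theorem odo_iter (m : ℕ) (g : Gam n) : (fun g : Gam n => g + 1)^[m] g = g + (m : Gam n) := by
  induction m with
  | zero => simp
  | succ m ih =>
    rw [Function.iterate_succ_apply', ih]
    push_cast
    ring

theorem hit_null (l : ℕ) (p : Pt) [MeasurableSpace (Gam n)] [BorelSpace (Gam n)]
    (ν : Measure (Gam n)) [IsProbabilityMeasure ν] (hν : ν.map (fun g => g + 1) = ν) :
    ν {g | Hit n l p (chi n g)} = 0 := by
  by_contra hne
  have hc : Continuous (fun g : Gam n => g + 1) := continuous_id.add continuous_const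
  have hmp : MeasurePreserving (fun g : Gam n => g + 1) ν ν := ⟨hc.measurable, hν⟩
  obtain ⟨g, hg, m, hm, hgm⟩ := hmp.exists_mem_iterate_mem
    ((isClosed_hit n l p).preimage (continuous_chi n)).measurableSet.nullMeasurableSet hne
  rw [odo_iter] at hgm
  apply hm
  have h0 : (m : ℤ) = 0 := by
    refine int_inj n (co_inj none) (fun k => ?_)
    have h1 : chi n g (co (none, k)) = _ := hg (co (none, k)) ((Jm_co _ _ _).2 trivial)
    have h2 : chi n (g + (m : Gam n)) (co (none, k)) = _ :=
      hgm (co (none, k)) ((Jm_co _ _ _).2 trivial)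
    rw [map_add, map_natCast, Pi.add_apply, h1] at h2
    have h3 := add_eq_left.1 h2
    rw [Int.cast_natCast, Int.cast_zero]
    exact h3
  exact_mod_cast h0

/-- The set of odometer points with at least two preimages is null. -/
theorem proj_null (t : Par) [MeasurableSpace (Gam n)] [BorelSpace (Gam n)] (ν : Measure (Gam n))
    [IsProbabilityMeasure ν] (hν : ν.map (fun g => g + 1) = ν) :
    ν {g | ∃ z w : KS n t, z ≠ w ∧ z.1.1 = g ∧ w.1.1 = g} = 0 := by
  refine measure_mono_null (t := ⋃ l, ⋃ p, {g | Hit n l p (chi n g)}) ?_ ?_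
  · rintro g ⟨z, w, hne, hz, hw⟩
    obtain ⟨l, p, _, hH⟩ := exists_hit n z.2 w.2 (hz.trans hw.symm)
      (fun h => hne (Subtype.ext h))
    rw [Set.mem_iUnion]
    refine ⟨l, ?_⟩
    rw [Set.mem_iUnion]
    refine ⟨p, ?_⟩
    rw [← hz]
    exact hH
  · rw [measure_iUnion_null_iff]
    intro l
    rw [measure_iUnion_null_iff]
    intro p
    exact hit_null n l p ν hν

/-- Some point is alone in its fibre. -/
theorem exists_single (t : Par) : ∃ z : KS n t, ∀ w : KS n t, w.1.1 = z.1.1 → w = z := by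
  obtain ⟨g, hgG, hg⟩ := chi_surj n (xi n)
  refine ⟨⟨_, dflt_mem n t hgG⟩, fun w hw => ?_⟩
  by_contra hne
  obtain ⟨l, p, _, hH⟩ := exists_hit n w.2 (dflt_mem n t hgG) hw (fun h => hne (Subtype.ext h))
  rw [hw] at hH
  change Hit n l p (chi n g) at hH
  rw [hg] at hH
  exact xi_no_hit n l p hH

end Pool.Agent.FlipD
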