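import Pool.Agent.FlipD.Chain

/-!
# Conjugacy of almost one-to-one extensions of an odometer in terms of codes
-/

namespace Pool.Agent.FlipD

open Set Filter Topology TopologicalSpace
open Pool.Agent.FlipC (Cantor MinHomeo Conj)

theorem exists_enumC : ∃ U : ℕ → Clopens Cantor, Function.Surjective U := by
  have : Countable (Clopens Cantor) := by
    rw [TopologicalSpace.Clopens.countable_iff_secondCountable]
    infer_instance
  exact exists_surjective_nat (Clopens Cantor)

/-- An enumeration of the clopen sets of Cantor space. -/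
noncomputable def UC : ℕ → Clopens Cantor := exists_enumC.choose

theorem UC_surj : Function.Surjective UC := exists_enumC.choose_spec

section

variable (n : ℕ → ℕ)

open Classical in
/-- The codes of the images of the clopen sets. -/
noncomputable def cod (π : C(Cantor, ∀ i, ZMod (n i))) (i : ℕ) : (Σ j : ℕ, ZMod (n j)) → Bool :=
  fun u => decide (∃ x ∈ UC i, π x u.1 = u.2)

open Classical in
theorem cod_true {π : C(Cantor, ∀ i, ZMod (n i))} {i : ℕ} {u : Σ j : ℕ, ZMod (n j)} :
    cod n π i u = true ↔ ∃ x ∈ UC i, π x u.1 = u.2 := by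
  unfold cod
  exact decide_eq_true_iff

open Classical in
theorem cod_eq_iff {π ρ : C(Cantor, ∀ i, ZMod (n i))} {i j : ℕ} {u w : Σ j : ℕ, ZMod (n j)} :
    cod n π i u = cod n ρ j w ↔ ((∃ x ∈ UC i, π x u.1 = u.2) ↔ ∃ x ∈ UC j, ρ x w.1 = w.2) := by
  unfold cod
  exact decide_eq_decide

/-- Valid data for an almost one-to-one extension: the map, its inverse, the factor map and a point
alone in its fibre. -/
structure VD (T T' : C(Cantor, Cantor)) (π : C(Cantor, ∀ i, ZMod (n i))) (x0 : Cantor) : Prop where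
  left : ∀ x, T' (T x) = x
  right : ∀ x, T (T' x) = x
  ret : ∀ i, (UC i : Set Cantor).Nonempty → ∃ N : ℕ, ∀ z, ∃ k ≤ N, (⇑T)^[k] z ∈ UC i
  lim : ∀ x, π x ∈ InvLim n
  eqv : ∀ x, π (T x) = π x + 1
  single : ∀ y, π y = π x0 → y = x0

variable {n} {T T' : C(Cantor, Cantor)} {π : C(Cantor, ∀ i, ZMod (n i))} {x0 : Cantor}

theorem VD.eqv' (h : VD n T T' π x0) (x : Cantor) : π (T' x) = π x - 1 := by
  have := h.eqv (T' x)
  rw [h.right] at this
  rw [this, add_sub_cancel_right]

theorem VD.iter (h : VD n T T' π x0) (k : ℕ) (x : Cantor) :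
    π ((⇑T)^[k] x) = π x + (k : ∀ i, ZMod (n i)) := by
  induction k with
  | zero => simp
  | succ k ih =>
    rw [Function.iterate_succ_apply', h.eqv, ih]
    push_cast
    ring

theorem exists_UC_mem {V : Set Cantor} (hV : IsOpen V) {x : Cantor} (hx : x ∈ V) :
    ∃ i, x ∈ UC i ∧ (UC i : Set Cantor) ⊆ V := by
  obtain ⟨W, hW, hxW, hWV⟩ := compact_exists_isClopen_in_isOpen hV hx
  obtain ⟨i, hi⟩ := UC_surj ⟨W, hW⟩
  refine ⟨i, ?_, ?_⟩
  · rw [hi]; exact hxW
  · rw [hi]; exact hWV

theorem VD.dense (h : VD n T T' π x0) (x : Cantor) :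
    Dense (Set.range fun k : ℕ => (⇑T)^[k] x) := by
  rw [dense_iff_inter_open]
  rintro V hV ⟨y, hy⟩
  obtain ⟨i, hyi, hiV⟩ := exists_UC_mem hV hy
  obtain ⟨N, hN⟩ := h.ret i ⟨y, hyi⟩
  obtain ⟨k, _, hk⟩ := hN x
  exact ⟨_, hiV hk, k, rfl⟩

/-- The inverse is valid as well. -/
theorem VD.inv (h : VD n T T' π x0) [Od n] : VD n T' T (-π) x0 where
  left := h.right
  right := h.left
  ret := by
    intro i hi
    obtain ⟨N, hN⟩ := h.ret i hi
    refine ⟨N, fun z => ?_⟩
    obtain ⟨k, hk, hkz⟩ := hN ((⇑T')^[N] z)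
    refine ⟨N - k, Nat.sub_le _ _, ?_⟩
    have h1 : ∀ (k : ℕ) (w : Cantor), (⇑T)^[k] ((⇑T')^[k] w) = w := by
      intro k
      induction k with
      | zero => intro w; rfl
      | succ k ih =>
        intro w
        rw [Function.iterate_succ_apply, Function.iterate_succ_apply', h.right, ih]
    have h2 : (⇑T')^[N] z = (⇑T')^[k] ((⇑T')^[N - k] z) := by
      rw [← Function.iterate_add_apply]
      congr 1
      omega
    rw [h2, h1] at hkz
    exact hkz
  lim := by
    intro x
    have := h.lim x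
    exact (GG n).neg_mem this
  eqv := by
    intro x
    change -(π (T' x)) = -(π x) + 1
    rw [h.eqv']
    ring
  single := by
    intro y hy
    apply h.single
    have : -(π y) = -(π x0) := hy
    exact neg_injective this

variable [Od n]

/-- The factor map is onto the odometer. -/
theorem VD.surj (h : VD n T T' π x0) {g : ∀ i, ZMod (n i)} (hg : g ∈ InvLim n) :
    ∃ x, π x = g := by
  have hc : IsClosed (Set.range π) := (isCompact_range π.continuous).isClosed
  have h1 : ∀ j : ℕ, ∃ x, ∀ i ≤ j, π x i = g i := by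
    intro j
    refine ⟨(⇑T)^[(g j - π x0 j).val] x0, fun i hi => ?_⟩
    have h2 : π ((⇑T)^[(g j - π x0 j).val] x0) j = g j := by
      rw [h.iter]
      change π x0 j + (((g j - π x0 j).val : ℕ) : ZMod (n j)) = g j
      rw [ZMod.natCast_zmod_val]
      ring
    rw [← invLim_le n (h.lim _) hi, h2, invLim_le n hg hi]
  choose u hu using h1
  have ht : Tendsto (fun j => π (u j)) atTop (𝓝 g) := by
    rw [tendsto_pi_nhds]
    intro i
    refine tendsto_nhds_of_eventually_eq ?_
    filter_upwards [eventually_ge_atTop i] with j hj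
    exact hu j i hj
  obtain ⟨x, hx⟩ := hc.mem_of_tendsto ht (Eventually.of_forall fun j => ⟨u j, rfl⟩)
  exact ⟨x, hx⟩

/-- Images of clopen sets are seen by the codes. -/
theorem VD.mem_image (h : VD n T T' π x0) {g : ∀ i, ZMod (n i)} (hg : g ∈ InvLim n) (i : ℕ) :
    (∃ x ∈ UC i, π x = g) ↔ ∀ l, cod n π i ⟨l, g l⟩ = true := by
  constructor
  · rintro ⟨x, hx, rfl⟩ l
    exact (cod_true n).2 ⟨x, hx, rfl⟩
  · intro hl
    have h1 : ∀ l, ∃ x ∈ UC i, π x l = g l := fun l => (cod_true n).1 (hl l)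
    let A : ℕ → Set Cantor := fun l => (UC i : Set Cantor) ∩ {x | π x l = g l}
    have hA : ∀ l, IsClosed (A l) := fun l =>
      (UC i).isClopen.isClosed.inter
        (isClosed_eq ((continuous_apply l).comp π.continuous) continuous_const)
    obtain ⟨x, hx⟩ := IsCompact.nonempty_iInter_of_sequence_nonempty_isCompact_isClosed A
      (fun l x hx => ⟨hx.1, by
        have h2 : π x (l + 1) = g (l + 1) := hx.2
        change π x l = g l
        rw [← (mem_invLim n).1 (h.lim x) l, h2, (mem_invLim n).1 hg l]⟩)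
      (fun l => by
        obtain ⟨x, hx, hxl⟩ := h1 l
        exact ⟨x, hx, hxl⟩)
      (hA 0).isCompact hA
    rw [Set.mem_iInter] at hx
    exact ⟨x, (hx 0).1, funext fun l => (hx l).2⟩

variable {S S' : C(Cantor, Cantor)} {ρ : C(Cantor, ∀ i, ZMod (n i))} {y0 : Cantor}

/-- Points over which the translated fibre is a single point: a dense `G_δ`. -/
theorem dense_single (h : VD n T T' π x0) (h' : VD n S S' ρ y0) {θ : ∀ i, ZMod (n i)}
    (hθ : θ ∈ InvLim n) :
    IsGδ {x | ∀ y y', ρ y = π x + θ → ρ y' = π x + θ → y = y'} ∧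
      Dense {x | ∀ y y', ρ y = π x + θ → ρ y' = π x + θ → y = y'} := by
  constructor
  · have : {x | ∀ y y', ρ y = π x + θ → ρ y' = π x + θ → y = y'} =
        ⋂ m : ℕ, (Prod.fst '' {q : Cantor × (Cantor × Cantor) |
          ρ q.2.1 = π q.1 + θ ∧ ρ q.2.2 = π q.1 + θ ∧ q.2.1 m ≠ q.2.2 m})ᶜ := by
      ext x
      rw [Set.mem_iInter]
      constructor
      · rintro hx m ⟨⟨x', y, y'⟩, ⟨h1, h2, h3⟩, rfl⟩
        exact h3 (congrFun (hx y y' h1 h2) m)
      · intro hx y y' h1 h2
        funext m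
        by_contra h3
        exact hx m ⟨(x, (y, y')), ⟨h1, h2, h3⟩, rfl⟩
    rw [this]
    refine IsGδ.iInter_of_isOpen fun m => ?_
    rw [isOpen_compl_iff]
    refine isClosedMap_fst_of_compactSpace _ ?_
    have c1 : Continuous (fun q : Cantor × (Cantor × Cantor) => ρ q.2.1) :=
      ρ.continuous.comp (continuous_fst.comp continuous_snd)
    have c2 : Continuous (fun q : Cantor × (Cantor × Cantor) => ρ q.2.2) :=
      ρ.continuous.comp (continuous_snd.comp continuous_snd)
    have c3 : Continuous (fun q : Cantor × (Cantor × Cantor) => π q.1 + θ) :=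
      (π.continuous.comp continuous_fst).add continuous_const
    have c4 : Continuous (fun q : Cantor × (Cantor × Cantor) => (q.2.1 m, q.2.2 m)) :=
      ((continuous_apply m).comp (continuous_fst.comp continuous_snd)).prodMk
        ((continuous_apply m).comp (continuous_snd.comp continuous_snd))
    exact (isClosed_eq c1 c3).inter ((isClosed_eq c2 c3).inter
      ((isClosed_discrete {b : Bool × Bool | b.1 ≠ b.2}).preimage c4))
  · obtain ⟨x1, hx1⟩ := h.surj (g := ρ y0 - θ) ((GG n).sub_mem (h'.lim y0) hθ)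
    refine (h.dense x1).mono ?_
    rintro _ ⟨k, rfl⟩ y y' hy hy'
    have key : ∀ y, ρ y = π ((⇑T)^[k] x1) + θ → y = (⇑S)^[k] y0 := by
      intro y hy
      rw [h.iter, hx1] at hy
      have hk : ∀ (k : ℕ) (w : Cantor), (⇑S)^[k] ((⇑S')^[k] w) = w := by
        intro k
        induction k with
        | zero => intro w; rfl
        | succ k ih =>
          intro w
          rw [Function.iterate_succ_apply, Function.iterate_succ_apply', h'.right, ih]
      have h2 := h'.iter k ((⇑S')^[k] y)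
      rw [hk, hy] at h2
      have h3 : ρ ((⇑S')^[k] y) = ρ y0 := by
        have h4 : ρ y0 - θ + (k : ∀ i, ZMod (n i)) + θ = ρ y0 + (k : ∀ i, ZMod (n i)) := by ring
        rw [h4] at h2
        exact (add_right_cancel h2).symm
      rw [← h'.single _ h3, hk]
    rw [key y hy, key y' hy']

/-- Existence of corresponding points. -/
theorem exists_corr (h : VD n T T' π x0) (h' : VD n S S' ρ y0) {θ : ∀ i, ZMod (n i)}
    (hθ : θ ∈ InvLim n) (R : ℕ → ℕ → Prop)
    (hR : ∀ i j, R i j → ∀ g ∈ InvLim n, (∃ x ∈ UC i, π x = g) ↔ ∃ y ∈ UC j, ρ y = g + θ)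
    (x : Cantor) : ∃ y, ∀ i j, R i j → (x ∈ UC i ↔ y ∈ UC j) := by
  classical
  have h0 := (dense_single h h (GG n).zero_mem)
  have h1 := (dense_single h h' hθ)
  have hd := Dense.inter_of_Gδ h0.1 h1.1 h0.2 h1.2
  let C : {q : ℕ × ℕ // R q.1 q.2} → Set Cantor := fun q => {y | x ∈ UC q.1.1 ↔ y ∈ UC q.1.2}
  have hC : ∀ q, IsClosed (C q) := by
    intro q
    by_cases hx : x ∈ UC q.1.1
    · convert (UC q.1.2).isClopen.isClosed using 1
      ext y
      exact iff_of_eq (by simp [C, hx])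
    · convert (UC q.1.2).isClopen.compl.isClosed using 1
      ext y
      exact iff_of_eq (by simp [C, hx])
  obtain ⟨y, _, hy⟩ := (isCompact_univ (X := Cantor)).inter_iInter_nonempty C hC (by
    intro F
    let W : Set Cantor := ⋂ q ∈ F, {x' | x' ∈ UC q.1.1 ↔ x ∈ UC q.1.1}
    have hW : IsOpen W := by
      refine isOpen_biInter_finset fun q _ => ?_
      by_cases hx : x ∈ UC q.1.1
      · convert (UC q.1.1).isClopen.isOpen using 1
        ext y
        exact iff_of_eq (by simp [hx])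
      · convert (UC q.1.1).isClopen.compl.isOpen using 1
        ext y
        exact iff_of_eq (by simp [hx])
    have hxW : x ∈ W := by
      rw [Set.mem_iInter₂]
      intro q _
      exact Iff.rfl
    obtain ⟨x', ⟨hx'A, hx'B⟩, hx'W⟩ := hd.exists_mem_open hW ⟨x, hxW⟩
    obtain ⟨y', hy'⟩ := h'.surj (g := π x' + θ) ((GG n).add_mem (h.lim x') hθ)
    refine ⟨y', Set.mem_univ _, ?_⟩
    rw [Set.mem_iInter₂]
    intro q hq
    change x ∈ UC q.1.1 ↔ y' ∈ UC q.1.2
    rw [Set.mem_iInter₂] at hx'W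
    have h2 : x' ∈ UC q.1.1 ↔ x ∈ UC q.1.1 := hx'W q hq
    rw [← h2]
    have h3 := hR q.1.1 q.1.2 q.2 (π x') (h.lim x')
    constructor
    · intro hx'
      obtain ⟨y'', hy'', hy2⟩ := h3.1 ⟨x', hx', rfl⟩
      rw [hx'B y' y'' hy' hy2]
      exact hy''
    · intro hy''
      obtain ⟨x'', hx'', hx2⟩ := h3.2 ⟨y', hy'', hy'⟩
      rw [hx'A x' x'' (by rw [add_zero]) (by rw [hx2, add_zero])]
      exact hx'')
  refine ⟨y, fun i j hij => ?_⟩
  rw [Set.mem_iInter] at hy
  exact hy ⟨(i, j), hij⟩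

theorem UC_sep {x y : Cantor} (hxy : x ≠ y) : ∃ i, x ∈ UC i ∧ y ∉ UC i := by
  obtain ⟨i, hi, hsub⟩ := exists_UC_mem (V := {y}ᶜ) isOpen_compl_singleton (x := x) hxy
  exact ⟨i, hi, fun h => hsub h rfl⟩

/-- The preimage code. -/
theorem cod_pre (h : VD n T T' π x0) {i i' : ℕ} (hi : ∀ x, x ∈ UC i' ↔ T x ∈ UC i) (l : ℕ)
    (r : ZMod (n l)) : cod n π i' ⟨l, r⟩ = cod n π i ⟨l, r + 1⟩ := by
  rw [cod_eq_iff]
  constructor
  · rintro ⟨x, hx, hxr⟩
    refine ⟨T x, (hi x).1 hx, ?_⟩
    rw [h.eqv]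
    change π x l + 1 = r + 1
    rw [show π x l = r from hxr]
  · rintro ⟨x, hx, hxr⟩
    refine ⟨T' x, (hi _).2 (by rw [h.right]; exact hx), ?_⟩
    rw [h.eqv']
    change π x l - 1 = r
    rw [show π x l = r + 1 from hxr, add_sub_cancel_right]

/-- Conjugacy in terms of codes. -/
theorem conj_iff (h : VD n T T' π x0) (h' : VD n S S' ρ y0) :
    Conj T S ↔ Eq' (actO n) (cod n π) (cod n ρ) := by
  constructor
  · rintro ⟨e, he⟩
    -- the translation
    have hinv : ∀ (k : ℕ), ρ (e ((⇑T)^[k] x0)) - π ((⇑T)^[k] x0) = ρ (e x0) - π x0 := by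
      intro k
      induction k with
      | zero => rfl
      | succ k ih =>
        rw [Function.iterate_succ_apply', he, h'.eqv, h.eqv, ← ih]
        ring
    have hconst : ∀ x, ρ (e x) - π x = ρ (e x0) - π x0 := by
      intro x
      have hc : IsClosed {x | ρ (e x) - π x = ρ (e x0) - π x0} :=
        isClosed_eq ((ρ.continuous.comp e.continuous).sub π.continuous) continuous_const
      have hsub : Set.range (fun k : ℕ => (⇑T)^[k] x0) ⊆ {x | ρ (e x) - π x = ρ (e x0) - π x0} := by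
        rintro _ ⟨k, rfl⟩
        exact hinv k
      have hx : x ∈ closure (Set.range fun k : ℕ => (⇑T)^[k] x0) := h.dense x0 x
      exact (hc.closure_subset_iff.2 hsub) hx
    let θ : GG n := ⟨ρ (e x0) - π x0, (GG n).sub_mem (h'.lim _) (h.lim _)⟩
    have hθ : ∀ x, ρ (e x) = π x + θ.1 := by
      intro x
      have := hconst x
      change ρ (e x) = π x + (ρ (e x0) - π x0)
      rw [← this]
      ring
    have key : ∀ i j, (∀ x, x ∈ UC i ↔ e x ∈ UC j) → actO n θ (cod n π i) = cod n ρ j := by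
      intro i j hij
      funext u
      obtain ⟨l, r⟩ := u
      change cod n π i ⟨l, r - θ.1 l⟩ = cod n ρ j ⟨l, r⟩
      rw [cod_eq_iff]
      constructor
      · rintro ⟨x, hx, hxr⟩
        refine ⟨e x, (hij x).1 hx, ?_⟩
        rw [hθ]
        change π x l + θ.1 l = r
        rw [show π x l = r - θ.1 l from hxr, sub_add_cancel]
      · rintro ⟨y, hy, hyr⟩
        refine ⟨e.symm y, (hij _).2 (by rw [e.apply_symm_apply]; exact hy), ?_⟩
        have h1 := hθ (e.symm y)
        rw [e.apply_symm_apply] at h1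
        change π (e.symm y) l = r - θ.1 l
        rw [← show ρ y l = r from hyr, h1]
        change π (e.symm y) l = π (e.symm y) l + θ.1 l - θ.1 l
        rw [add_sub_cancel_right]
    refine ⟨θ, fun i => ?_, fun j => ?_⟩
    · obtain ⟨j, hj⟩ := UC_surj ⟨e.symm ⁻¹' (UC i : Set Cantor),
        (UC i).isClopen.preimage e.symm.continuous⟩
      refine ⟨j, key i j fun x => ?_⟩
      rw [hj]
      change x ∈ UC i ↔ e.symm (e x) ∈ UC i
      rw [e.symm_apply_apply]
    · obtain ⟨i, hi⟩ := UC_surj ⟨e ⁻¹' (UC j : Set Cantor),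
        (UC j).isClopen.preimage e.continuous⟩
      refine ⟨i, key i j fun x => ?_⟩
      rw [hi]
      exact Iff.rfl
  · rintro ⟨θ, hij, hji⟩
    let R : ℕ → ℕ → Prop := fun i j => actO n θ (cod n π i) = cod n ρ j
    have hcode : ∀ i j, R i j → ∀ l r, cod n ρ j ⟨l, r⟩ = cod n π i ⟨l, r - θ.1 l⟩ :=
      fun i j hR l r => (congrFun hR ⟨l, r⟩).symm
    have hR : ∀ i j, R i j → ∀ g ∈ InvLim n, (∃ x ∈ UC i, π x = g) ↔ ∃ y ∈ UC j, ρ y = g + θ.1 := by
      intro i j hR g hg
      rw [h.mem_image hg i, h'.mem_image ((GG n).add_mem hg θ.2) j]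
      refine forall_congr' fun l => ?_
      rw [hcode i j hR l]
      have : (g + θ.1) l - θ.1 l = g l := by
        rw [Pi.add_apply, add_sub_cancel_right]
      rw [this]
    have hR' : ∀ j i, R i j → ∀ g ∈ InvLim n, (∃ y ∈ UC j, ρ y = g) ↔
        ∃ x ∈ UC i, π x = g + -θ.1 := by
      intro j i hR2 g hg
      have := hR i j hR2 (g + -θ.1) ((GG n).add_mem hg ((GG n).neg_mem θ.2))
      rw [this]
      have h1 : g + -θ.1 + θ.1 = g := by ring
      rw [h1]
    choose e he using exists_corr h h' θ.2 R hR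
    choose f hf using exists_corr h' h ((GG n).neg_mem θ.2) (fun j i => R i j) hR'
    have huniq : ∀ x y y', (∀ i j, R i j → (x ∈ UC i ↔ y ∈ UC j)) →
        (∀ i j, R i j → (x ∈ UC i ↔ y' ∈ UC j)) → y = y' := by
      intro x y y' h1 h2
      by_contra hne
      obtain ⟨j, hj, hj'⟩ := UC_sep hne
      obtain ⟨i, hi⟩ := hji j
      exact hj' ((h2 i j hi).1 ((h1 i j hi).2 hj))
    have huniq' : ∀ y x x', (∀ i j, R i j → (x ∈ UC i ↔ y ∈ UC j)) →
        (∀ i j, R i j → (x' ∈ UC i ↔ y ∈ UC j)) → x = x' := by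
      intro y x x' h1 h2
      by_contra hne
      obtain ⟨i, hi, hi'⟩ := UC_sep hne
      obtain ⟨j, hj⟩ := hij i
      exact hi' ((h2 i j hj).2 ((h1 i j hj).1 hi))
    have hfe : ∀ x, f (e x) = x := fun x =>
      huniq' (e x) _ _ (fun i j hR2 => (hf (e x) j i hR2).symm) (he x)
    have hef : ∀ y, e (f y) = y := fun y =>
      huniq (f y) _ _ (he (f y)) (fun i j hR2 => (hf y j i hR2).symm)
    have hcont : Continuous e := by
      rw [continuous_def]
      intro V hV
      rw [isOpen_iff_mem_nhds]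
      intro x hx
      obtain ⟨j, hj, hjV⟩ := exists_UC_mem hV (show e x ∈ V from hx)
      obtain ⟨i, hi⟩ := hji j
      have hxi : x ∈ UC i := (he x i j hi).2 hj
      filter_upwards [(UC i).isClopen.isOpen.mem_nhds hxi] with x' hx'
      exact hjV ((he x' i j hi).1 hx')
    let E : Cantor ≃ Cantor := ⟨e, f, hfe, hef⟩
    refine ⟨Continuous.homeoOfEquivCompactToT2 (f := E) hcont, fun x => ?_⟩
    change e (T x) = S (e x)
    refine huniq (T x) _ _ (he (T x)) (fun i j hR2 => ?_)
    obtain ⟨i', hi'⟩ := UC_surj ⟨T ⁻¹' (UC i : Set Cantor), (UC i).isClopen.preimage T.continuous⟩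
    obtain ⟨j', hj'⟩ := UC_surj ⟨S ⁻¹' (UC j : Set Cantor), (UC j).isClopen.preimage S.continuous⟩
    have hi2 : ∀ x, x ∈ UC i' ↔ T x ∈ UC i := by
      intro x; rw [hi']; exact Iff.rfl
    have hj2 : ∀ x, x ∈ UC j' ↔ S x ∈ UC j := by
      intro x; rw [hj']; exact Iff.rfl
    have hR3 : R i' j' := by
      funext u
      obtain ⟨l, r⟩ := u
      change cod n π i' ⟨l, r - θ.1 l⟩ = cod n ρ j' ⟨l, r⟩
      rw [cod_pre h hi2, cod_pre h' hj2, hcode i j hR2]
      congr 2
      ring
    rw [← hi2, ← hj2]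
    exact he x i' j' hR3

end

end Pool.Agent.FlipD
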